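import Pool.Agent.Helper37_BSig.Stmts

/-!
# FINAL: the final statement from the two claims
-/

namespace Pool.Agent.BSig

open FirstOrder FirstOrder.Language

/-- The semantic content of the sentence. -/
def SemSentence (D : Type) [LE D] : Prop :=
  ∃ a : D, (∃ x : D, ¬ a ≤ x) ∧ ∀ b c : D, (∀ u : D, (b ≤ u ∧ a ≤ u) → c ≤ u) →
    (c ≤ b ∨ a ≤ c ∨ a ≤ b)

/-- The sentence separating the two structures. -/
def theSentence : Language.order.Sentence :=
  ∃' ((∃' ∼((&0 : Language.order.Term (Empty ⊕ Fin 2)).le (&1))) ⊓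
    ∀' ∀' ((∀' (((&1 : Language.order.Term (Empty ⊕ Fin 4)).le (&3) ⊓
      (&0 : Language.order.Term (Empty ⊕ Fin 4)).le (&3)).imp
        ((&2 : Language.order.Term (Empty ⊕ Fin 4)).le (&3)))).imp
      ((&2 : Language.order.Term (Empty ⊕ Fin 3)).le (&1) ⊔
        ((&0 : Language.order.Term (Empty ⊕ Fin 3)).le (&2) ⊔
          (&0 : Language.order.Term (Empty ⊕ Fin 3)).le (&1)))))

theorem realize_theSentence (D : Type) [LE D] [Language.order.Structure D]
    [Language.order.OrderedStructure D] : D ⊨ theSentence ↔ SemSentence D := by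
  unfold theSentence SemSentence Sentence.Realize Formula.Realize
  simp only [BoundedFormula.realize_ex, BoundedFormula.realize_inf, BoundedFormula.realize_not,
    BoundedFormula.realize_all, BoundedFormula.realize_imp, BoundedFormula.realize_sup,
    Term.realize_le]
  rfl


section

variable (hR : RedBasics)
include hR

theorem deg_eq_iff (A B : Set MM) : deg A = deg B ↔ Red A B ∧ Red B A := by
  obtain ⟨h1, h2, -⟩ := hR
  constructor
  · intro h
    have he : Equivalence (fun A B : Set MM => Red A B ∧ Red B A) :=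
      ⟨fun A => ⟨h1 A, h1 A⟩, fun h => ⟨h.2, h.1⟩,
        fun h h' => ⟨h2 _ _ _ h.1 h'.1, h2 _ _ _ h'.2 h.2⟩⟩
    exact (Quot.eqvGen_exact h).rec (fun _ _ h => h) (fun x => he.refl x)
      (fun _ _ _ h => he.symm h) (fun _ _ _ _ _ h h' => he.trans h h')
  · intro h; exact Quot.sound h

theorem deg_le_iff (A B : Set MM) : deg A ≤ deg B ↔ Red A B := by
  constructor
  · rintro ⟨A', B', h1, h2, h3⟩
    have e1 := (deg_eq_iff hR _ _).1 h1
    have e2 := (deg_eq_iff hR _ _).1 h2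
    exact hR.2.1 _ _ _ e1.2 (hR.2.1 _ _ _ h3 e2.1)
  · intro h; exact ⟨A, B, rfl, rfl, h⟩

theorem sem_deg (hC : Claim1) (hO : OmegaBasics) : SemSentence (Deg MM) := by
  have le := deg_le_iff hR
  obtain ⟨h1, h2, h3, h4, h5⟩ := hR
  refine ⟨deg (omega MM), ⟨deg ∅, fun h => hO.2.2.2.2 ((le _ _).1 h)⟩, ?_⟩
  intro b c H
  obtain ⟨B, rfl⟩ := Quot.exists_rep b
  obtain ⟨C, rfl⟩ := Quot.exists_rep c
  change deg C ≤ deg B ∨ deg (omega MM) ≤ deg C ∨ deg (omega MM) ≤ deg B
  have hu := H (deg (jn B (omega MM))) ⟨(le _ _).2 (h3 _ _), (le _ _).2 (h4 _ _)⟩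
  have hu' : Red C (jn B (omega MM)) := (le _ _).1 hu
  rw [le, le, le]
  by_contra hc
  push Not at hc
  exact hc.1 (hC B C hu' hc.2.2 hc.2.1)

theorem not_sem_cone (hC : Claim2) : ¬ SemSentence (DegGE (omega MM)) := by
  have le := deg_le_iff hR
  obtain ⟨h1, h2, h3, h4, h5⟩ := hR
  rintro ⟨⟨a, ha⟩, ⟨⟨x, hx⟩, hax⟩, H⟩
  obtain ⟨A, rfl⟩ := Quot.exists_rep a
  obtain ⟨X, rfl⟩ := Quot.exists_rep x
  change deg (omega MM) ≤ deg A at ha
  change deg (omega MM) ≤ deg X at hx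
  change ¬ deg A ≤ deg X at hax
  rw [le] at ha hx hax
  have hA : ¬ Red A (omega MM) := fun h => hax (h2 _ _ _ h hx)
  obtain ⟨G, K, g1, g2, g3, g4⟩ := hC A hA
  have h := H ⟨deg (jn G (omega MM)), (le _ _).2 (h4 _ _)⟩
    ⟨deg (jn K (omega MM)), (le _ _).2 (h4 _ _)⟩ (by
      rintro ⟨u, hu⟩ ⟨hu1, hu2⟩
      obtain ⟨U, rfl⟩ := Quot.exists_rep u
      change deg (omega MM) ≤ deg U at hu
      change deg (jn G (omega MM)) ≤ deg U at hu1
      change deg A ≤ deg U at hu2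
      change deg (jn K (omega MM)) ≤ deg U
      rw [le] at *
      exact h5 _ _ _ (h2 _ _ _ g3 (h5 _ _ _ (h2 _ _ _ (h3 _ _) hu1) hu2)) hu)
  rcases h with h | h | h
  · change deg (jn K (omega MM)) ≤ deg (jn G (omega MM)) at h
    rw [le] at h
    exact g1 (h2 _ _ _ g4 (h5 _ _ _ (h3 _ _) (h2 _ _ _ (h3 _ _) h)))
  · change deg A ≤ deg (jn K (omega MM)) at h
    rw [le] at h; exact g2 h
  · change deg A ≤ deg (jn G (omega MM)) at h
    rw [le] at h; exact g1 h

end

instance : Language.order.OrderedStructure (Deg MM) := ⟨fun _ => Iff.rfl⟩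
instance : Language.order.OrderedStructure (DegGE (omega MM)) := ⟨fun _ => Iff.rfl⟩

theorem final_proof (h1 : Claim1) (h2 : Claim2) (h3 : RedBasics) (h4 : OmegaBasics)
    (h5 : SchemeStmt) (h6 : CodeStmt) : FinalStatement := by
  refine ⟨MM, inferInstance, ⟨⟨h5.1, h5.2.1⟩, h4.2.2.2.1, h6.1⟩, h5.2.2, omega MM,
    h4.2.2.2.1, fun h => ?_⟩
  have h' := (elementarilyEquivalent_iff.1 h) theSentence
  rw [realize_theSentence, realize_theSentence] at h'
  exact not_sem_cone h3 h2 (h'.1 (sem_deg h3 h1 h4))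

end Pool.Agent.BSig
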