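import Pool.Agent.Helper37_BSig.Defs

/-!
# Closure properties of `Δ₀` and `Σ₁` relations
-/

namespace Pool.Agent.BSig

variable {M : Type} [PAExp M]

theorem IsTerm.subst {k l : ℕ} {f : (Fin k → M) → M} (hf : IsTerm f)
    {F : Fin k → (Fin l → M) → M} (hF : ∀ i, IsTerm (F i)) :
    IsTerm (fun v => f (fun i => F i v)) := by
  induction hf with
  | param c => exact IsTerm.param c
  | var i => exact hF i
  | add _ _ ih1 ih2 => exact ih1.add ih2
  | mul _ _ ih1 ih2 => exact ih1.mul ih2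
  | pow2 _ ih1 => exact ih1.pow2

theorem IsTerm.tail {k : ℕ} {f : (Fin k → M) → M} (hf : IsTerm f) :
    IsTerm (fun w : Fin (k + 1) → M => f (Fin.tail w)) :=
  hf.subst (F := fun i w => w i.succ) (fun i => IsTerm.var i.succ)

theorem IsDelta0.subst {k : ℕ} {P : (Fin k → M) → Prop} (hP : IsDelta0 P) :
    ∀ {l : ℕ} {F : Fin k → (Fin l → M) → M}, (∀ i, IsTerm (F i)) →
    IsDelta0 (fun v => P (fun i => F i v)) := by
  induction hP with
  | eq h1 h2 => exact fun hF => .eq (h1.subst hF) (h2.subst hF)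
  | le h1 h2 => exact fun hF => .le (h1.subst hF) (h2.subst hF)
  | not _ ih => exact fun hF => (ih hF).not
  | and _ _ ih1 ih2 => exact fun hF => (ih1 hF).and (ih2 hF)
  | @ball k f Q hf _ ih =>
    intro l F hF
    have := ih (l := l + 1)
      (F := Fin.cons (fun w => w 0) (fun i w => F i (Fin.tail w))) (by
        intro i; refine Fin.cases ?_ ?_ i
        · exact IsTerm.var 0
        · intro j; exact (hF j).tail)
    have h2 := IsDelta0.ball (hf.subst hF) this
    have e : (fun v : Fin l → M => ∀ x, x ≤ f (fun i => F i v) →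
        (fun w => Q (fun i => (Fin.cons (fun w => w 0) (fun i w => F i (Fin.tail w)) :
          Fin (k + 1) → (Fin (l + 1) → M) → M) i w)) (Fin.cons x v)) =
        fun v => (fun v => ∀ x, x ≤ f v → Q (Fin.cons x v)) (fun i => F i v) := by
      funext v
      apply propext
      refine forall_congr' fun x => imp_congr_right fun _ => ?_
      have : (fun i => (Fin.cons (fun w => w 0) (fun i w => F i (Fin.tail w)) :
          Fin (k + 1) → (Fin (l + 1) → M) → M) i (Fin.cons x v)) =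
          (Fin.cons x (fun i => F i v) : Fin (k + 1) → M) := by
        funext i; refine Fin.cases ?_ ?_ i
        · rfl
        · intro j; simp [Fin.tail_cons]
      simp only [this]
    rw [← e]; exact h2

theorem IsDelta0.congr {k : ℕ} {P Q : (Fin k → M) → Prop} (hP : IsDelta0 P)
    (h : ∀ v, Q v ↔ P v) : IsDelta0 Q := by
  have : Q = P := by funext v; exact propext (h v)
  rw [this]; exact hP

theorem IsDelta0.tail {k : ℕ} {P : (Fin k → M) → Prop} (hP : IsDelta0 P) :
    IsDelta0 (fun w : Fin (k + 1) → M => P (Fin.tail w)) :=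
  hP.subst (F := fun i w => w i.succ) (fun i => IsTerm.var i.succ)

theorem IsDelta0.or {k : ℕ} {P Q : (Fin k → M) → Prop} (hP : IsDelta0 P) (hQ : IsDelta0 Q) :
    IsDelta0 (fun v => P v ∨ Q v) :=
  (hP.not.and hQ.not).not.congr fun v => by tauto

theorem IsDelta0.imp {k : ℕ} {P Q : (Fin k → M) → Prop} (hP : IsDelta0 P) (hQ : IsDelta0 Q) :
    IsDelta0 (fun v => P v → Q v) :=
  (hP.and hQ.not).not.congr fun v => by tauto

theorem IsDelta0.iff {k : ℕ} {P Q : (Fin k → M) → Prop} (hP : IsDelta0 P) (hQ : IsDelta0 Q) :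
    IsDelta0 (fun v => P v ↔ Q v) :=
  ((hP.imp hQ).and (hQ.imp hP)).congr fun v => by tauto

theorem IsDelta0.lt {k : ℕ} {f g : (Fin k → M) → M} (hf : IsTerm f) (hg : IsTerm g) :
    IsDelta0 (fun v => f v < g v) :=
  (IsDelta0.le hg hf).not.congr fun v => by simp

theorem IsDelta0.ne {k : ℕ} {f g : (Fin k → M) → M} (hf : IsTerm f) (hg : IsTerm g) :
    IsDelta0 (fun v => f v ≠ g v) := (IsDelta0.eq hf hg).not

theorem IsDelta0.true {k : ℕ} : IsDelta0 (fun _ : Fin k → M => True) :=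
  (IsDelta0.le (IsTerm.param 0) (IsTerm.param 0)).congr fun v => by simp

theorem IsDelta0.false {k : ℕ} : IsDelta0 (fun _ : Fin k → M => False) :=
  (IsDelta0.true.not).congr fun _ => by simp

/-- Bounded universal quantifier, curried form: `Q : M → (Fin k → M) → Prop`. -/
theorem IsDelta0.all {k : ℕ} {f : (Fin k → M) → M} {Q : M → (Fin k → M) → Prop}
    (hf : IsTerm f) (hQ : IsDelta0 (fun w : Fin (k + 1) → M => Q (w 0) (Fin.tail w))) :
    IsDelta0 (fun v => ∀ x, x ≤ f v → Q x v) :=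
  (IsDelta0.ball hf hQ).congr fun v => by simp [Fin.tail_cons]

theorem IsDelta0.allLt {k : ℕ} {f : (Fin k → M) → M} {Q : M → (Fin k → M) → Prop}
    (hf : IsTerm f) (hQ : IsDelta0 (fun w : Fin (k + 1) → M => Q (w 0) (Fin.tail w))) :
    IsDelta0 (fun v => ∀ x, x < f v → Q x v) :=
  (IsDelta0.all hf (Q := fun x v => x < f v → Q x v)
    ((IsDelta0.lt (IsTerm.var 0) hf.tail).imp hQ)).congr fun v =>
      ⟨fun h x _ h2 => h x h2, fun h x h2 => h x h2.le h2⟩

theorem IsDelta0.ex {k : ℕ} {f : (Fin k → M) → M} {Q : M → (Fin k → M) → Prop}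
    (hf : IsTerm f) (hQ : IsDelta0 (fun w : Fin (k + 1) → M => Q (w 0) (Fin.tail w))) :
    IsDelta0 (fun v => ∃ x, x ≤ f v ∧ Q x v) :=
  (IsDelta0.all hf (Q := fun x v => ¬ Q x v) hQ.not).not.congr fun v => by
    push Not; rfl

theorem IsDelta0.exLt {k : ℕ} {f : (Fin k → M) → M} {Q : M → (Fin k → M) → Prop}
    (hf : IsTerm f) (hQ : IsDelta0 (fun w : Fin (k + 1) → M => Q (w 0) (Fin.tail w))) :
    IsDelta0 (fun v => ∃ x, x < f v ∧ Q x v) :=
  (IsDelta0.allLt hf (Q := fun x v => ¬ Q x v) hQ.not).not.congr fun v => by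
    push Not; rfl

/-- `Σ₁` relations, normal form with one existential quantifier in front. -/
def Sig1 {k : ℕ} (P : (Fin k → M) → Prop) : Prop :=
  ∃ Q : (Fin (k + 1) → M) → Prop, IsDelta0 Q ∧ ∀ v, P v ↔ ∃ a, Q (Fin.cons a v)

theorem Sig1.congr {k : ℕ} {P Q : (Fin k → M) → Prop} (hP : Sig1 P)
    (h : ∀ v, Q v ↔ P v) : Sig1 Q := by
  obtain ⟨R, hR, h2⟩ := hP
  exact ⟨R, hR, fun v => (h v).trans (h2 v)⟩

theorem Sig1.of_delta0 {k : ℕ} {P : (Fin k → M) → Prop} (hP : IsDelta0 P) : Sig1 P :=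
  ⟨fun w => P (Fin.tail w), hP.tail, fun v => by simp [Fin.tail_cons]⟩

theorem Sig1.isSigma {k : ℕ} {P : (Fin k → M) → Prop} (hP : Sig1 P) : IsSigma 1 P := by
  obtain ⟨R, hR, h2⟩ := hP
  refine ⟨1, fun w : Fin (1 + k) → M => ¬ R (fun i => w (Fin.cast (Nat.add_comm k 1) i)), ?_, ?_⟩
  · exact (hR.subst (F := fun i w => w (Fin.cast (Nat.add_comm k 1) i))
      (fun i => IsTerm.var _)).not
  · intro v
    rw [h2]
    have e : ∀ w : Fin 1 → M, (fun i => (Fin.append w v) (Fin.cast (Nat.add_comm k 1) i)) =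
        (Fin.cons (w 0) v : Fin (k + 1) → M) := by
      intro w
      funext i
      refine Fin.cases ?_ ?_ i
      · exact Fin.append_left w v 0
      · intro j
        have : (Fin.cast (Nat.add_comm k 1) j.succ) = Fin.natAdd 1 j := by
          ext; simp [Nat.add_comm]
        rw [this, Fin.append_right]
        rfl
    constructor
    · rintro ⟨a, ha⟩
      exact ⟨fun _ => a, by rw [not_not, e]; exact ha⟩
    · rintro ⟨w, hw⟩
      exact ⟨w 0, by rw [not_not, e] at hw; exact hw⟩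

/-- Bounding a block of `j` variables. -/
theorem IsDelta0.exBlock (j : ℕ) :
    ∀ {k l : ℕ} {f : (Fin k → M) → M} {R : (Fin l → M) → Prop} (τ : Fin l → Fin j ⊕ Fin k),
    IsTerm f → IsDelta0 R →
    IsDelta0 (fun v : Fin k → M => ∃ w : Fin j → M, (∀ i, w i ≤ f v) ∧
      R (fun i => Sum.elim w v (τ i))) := by
  induction j with
  | zero =>
    intro k l f R τ _ hR
    let σ : Fin l → Fin k := fun i => (τ i).elim (fun a => a.elim0) id
    refine (hR.subst (F := fun i v => v (σ i)) (fun i => IsTerm.var _)).congr fun v => ?_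
    have e : ∀ w : Fin 0 → M, (fun i => Sum.elim w v (τ i)) = fun i => v (σ i) := by
      intro w; funext i
      simp only [σ]
      rcases h : τ i with a | a
      · exact a.elim0
      · rfl
    constructor
    · rintro ⟨w, _, h⟩; rw [e] at h; exact h
    · intro h; exact ⟨fun a => a.elim0, fun a => a.elim0, by rw [e]; exact h⟩
  | succ j ih =>
    intro k l f R τ hf hR
    let τ' : Fin l → Fin j ⊕ Fin (k + 1) := fun i => (τ i).elim
      (fun a => Fin.cases (motive := fun _ => Fin j ⊕ Fin (k + 1)) (Sum.inr 0) (fun b => Sum.inl b) a)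
      (fun b => Sum.inr b.succ)
    have h := ih τ' (f := fun v => f (Fin.tail v)) hf.tail hR
    refine (IsDelta0.ex hf (Q := fun x v => ∃ w : Fin j → M, (∀ i, w i ≤ f v) ∧
      R (fun i => Sum.elim w (Fin.cons x v : Fin (k + 1) → M) (τ' i))) ?_).congr fun v => ?_
    · refine h.congr fun u => ?_
      have : (Fin.cons (u 0) (Fin.tail u) : Fin (k + 1) → M) = u := Fin.cons_self_tail u
      rw [this]
    · have e : ∀ (x : M) (w : Fin j → M), (fun i => Sum.elim (Fin.cons x w : Fin (j + 1) → M) v (τ i)) =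
          fun i => Sum.elim w (Fin.cons x v : Fin (k + 1) → M) (τ' i) := by
        intro x w; funext i
        simp only [τ']
        rcases h : τ i with a | a
        · refine Fin.cases ?_ ?_ a
          · simp
          · intro b; simp
        · simp
      constructor
      · rintro ⟨w, hw, h⟩
        refine ⟨w 0, hw 0, fun i => w i.succ, fun i => hw _, ?_⟩
        rw [← e]
        have : (Fin.cons (w 0) (fun i => w i.succ) : Fin (j + 1) → M) = w := Fin.cons_self_tail w
        rw [this]; exact h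
      · rintro ⟨x, hx, w, hw, h⟩
        refine ⟨Fin.cons x w, ?_, ?_⟩
        · intro i; refine Fin.cases ?_ ?_ i
          · exact hx
          · exact hw
        · rw [e]; exact h

theorem Sig1.of_isSigma {k : ℕ} {P : (Fin k → M) → Prop} (hP : IsSigma 1 P) : Sig1 P := by
  obtain ⟨j, Q, hQ, h⟩ := hP
  have hQ' : IsDelta0 Q := hQ
  let τ : Fin (j + k) → Fin j ⊕ Fin (k + 1) := fun i =>
    Fin.addCases (motive := fun _ => Fin j ⊕ Fin (k + 1)) (fun a => Sum.inl a)
      (fun b => Sum.inr b.succ) i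
  refine ⟨fun u => ∃ w : Fin j → M, (∀ i, w i ≤ u 0) ∧
    ¬ Q (fun i => Sum.elim w u (τ i)), ?_, fun v => ?_⟩
  · exact IsDelta0.exBlock j τ (IsTerm.var 0) hQ'.not
  · rw [h]
    have e : ∀ (a : M) (w : Fin j → M), Fin.append w v =
        fun i => Sum.elim w (Fin.cons a v : Fin (k + 1) → M) (τ i) := by
      intro a w; funext i
      refine Fin.addCases ?_ ?_ i
      · intro b; simp [τ]
      · intro b; simp [τ]
    constructor
    · rintro ⟨w, hw⟩
      obtain ⟨a, ha⟩ := (Set.finite_range w).bddAbove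
      exact ⟨a, w, fun i => ha (Set.mem_range_self i), by rw [← e a w]; exact hw⟩
    · rintro ⟨a, w, _, hw⟩
      exact ⟨w, by rw [e a w]; exact hw⟩

theorem Sig1.subst {k l : ℕ} {P : (Fin k → M) → Prop} (hP : Sig1 P)
    {F : Fin k → (Fin l → M) → M} (hF : ∀ i, IsTerm (F i)) :
    Sig1 (fun v => P (fun i => F i v)) := by
  obtain ⟨Q, hQ, h⟩ := hP
  refine ⟨fun u => Q (Fin.cons (u 0) (fun i => F i (Fin.tail u))), ?_, fun v => ?_⟩
  · refine (hQ.subst (F := Fin.cons (fun u => u 0) (fun i u => F i (Fin.tail u))) ?_).congr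
      fun u => ?_
    · intro i; refine Fin.cases ?_ ?_ i
      · exact IsTerm.var 0
      · intro j; exact (hF j).tail
    · have : (Fin.cons (u 0) (fun i => F i (Fin.tail u)) : Fin (k + 1) → M) =
        fun i => (Fin.cons (fun u => u 0) (fun i u => F i (Fin.tail u)) :
          Fin (k + 1) → (Fin (l + 1) → M) → M) i u := by
        funext i; refine Fin.cases ?_ ?_ i
        · rfl
        · intro j; rfl
      rw [this]
  · beta_reduce; rw [h]; simp [Fin.tail_cons]

theorem Sig1.tail {k : ℕ} {P : (Fin k → M) → Prop} (hP : Sig1 P) :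
    Sig1 (fun w : Fin (k + 1) → M => P (Fin.tail w)) :=
  hP.subst (F := fun i w => w i.succ) (fun i => IsTerm.var i.succ)

/-- In a `Σ₁` relation the witness may be bounded by any large enough number. -/
theorem Sig1.mono {k : ℕ} {P : (Fin k → M) → Prop} (hP : Sig1 P) :
    ∃ Q : (Fin (k + 1) → M) → Prop, IsDelta0 Q ∧ (∀ v, P v ↔ ∃ a, Q (Fin.cons a v)) ∧
      ∀ v a b, a ≤ b → Q (Fin.cons a v) → Q (Fin.cons b v) := by
  obtain ⟨Q, hQ, h⟩ := hP
  refine ⟨fun u => ∃ a, a ≤ u 0 ∧ Q (Fin.cons a (Fin.tail u)), ?_, fun v => ?_, ?_⟩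
  · refine IsDelta0.ex (IsTerm.var 0) (Q := fun a u => Q (Fin.cons a (Fin.tail u))) ?_
    refine (hQ.subst (F := Fin.cons (fun w => w 0) (fun i w => w i.succ.succ)) ?_).congr
      fun u => ?_
    · intro i; refine Fin.cases ?_ ?_ i
      · exact IsTerm.var 0
      · intro j; exact IsTerm.var _
    · have : (Fin.cons (u 0) (Fin.tail (Fin.tail u)) : Fin (k + 1) → M) =
        fun i => (Fin.cons (fun w => w 0) (fun i w => w i.succ.succ) :
          Fin (k + 1) → (Fin (k + 1 + 1) → M) → M) i u := by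
        funext i; refine Fin.cases ?_ ?_ i
        · rfl
        · intro j; rfl
      rw [this]
  · rw [h]
    constructor
    · rintro ⟨a, ha⟩; exact ⟨a, a, le_refl _, by simpa [Fin.tail_cons] using ha⟩
    · rintro ⟨b, a, _, ha⟩; exact ⟨a, by simpa [Fin.tail_cons] using ha⟩
  · rintro v a b hab ⟨c, hc, h⟩
    exact ⟨c, hc.trans hab, by simpa [Fin.tail_cons] using h⟩

theorem Sig1.and {k : ℕ} {P Q : (Fin k → M) → Prop} (hP : Sig1 P) (hQ : Sig1 Q) :
    Sig1 (fun v => P v ∧ Q v) := by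
  obtain ⟨P', hP', h1, m1⟩ := hP.mono
  obtain ⟨Q', hQ', h2, m2⟩ := hQ.mono
  refine ⟨fun u => P' u ∧ Q' u, hP'.and hQ', fun v => ?_⟩
  beta_reduce
  rw [h1, h2]
  constructor
  · rintro ⟨⟨a, ha⟩, ⟨b, hb⟩⟩
    exact ⟨max a b, m1 _ _ _ (le_max_left _ _) ha, m2 _ _ _ (le_max_right _ _) hb⟩
  · rintro ⟨a, ha, hb⟩; exact ⟨⟨a, ha⟩, ⟨a, hb⟩⟩

theorem Sig1.or {k : ℕ} {P Q : (Fin k → M) → Prop} (hP : Sig1 P) (hQ : Sig1 Q) :
    Sig1 (fun v => P v ∨ Q v) := by
  obtain ⟨P', hP', h1⟩ := hP
  obtain ⟨Q', hQ', h2⟩ := hQ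
  refine ⟨fun u => P' u ∨ Q' u, hP'.or hQ', fun v => ?_⟩
  beta_reduce
  rw [h1, h2]
  exact exists_or.symm

theorem Sig1.ex {k : ℕ} {Q : M → (Fin k → M) → Prop}
    (hQ : Sig1 (fun w : Fin (k + 1) → M => Q (w 0) (Fin.tail w))) :
    Sig1 (fun v => ∃ x, Q x v) := by
  obtain ⟨R, hR, h, m⟩ := hQ.mono
  refine ⟨fun u => ∃ x, x ≤ u 0 ∧ R (Fin.cons (u 0) (Fin.cons x (Fin.tail u))), ?_, fun v => ?_⟩
  · refine IsDelta0.ex (IsTerm.var 0)
      (Q := fun x u => R (Fin.cons (u 0) (Fin.cons x (Fin.tail u)))) ?_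
    refine (hR.subst (F := Fin.cons (fun w => w 1) (Fin.cons (fun w => w 0)
      (fun i w => w i.succ.succ))) ?_).congr fun u => ?_
    · intro i; refine Fin.cases ?_ ?_ i
      · exact IsTerm.var 1
      · intro j; refine Fin.cases ?_ ?_ j
        · exact IsTerm.var 0
        · intro l; exact IsTerm.var _
    · have : (Fin.cons (Fin.tail u 0) (Fin.cons (u 0) (Fin.tail (Fin.tail u))) :
          Fin (k + 1 + 1) → M) =
        fun i => (Fin.cons (fun w => w 1) (Fin.cons (fun w => w 0)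
          (fun i w => w i.succ.succ)) : Fin (k + 1 + 1) → (Fin (k + 1 + 1) → M) → M) i u := by
        funext i; refine Fin.cases ?_ ?_ i
        · rfl
        · intro j; refine Fin.cases ?_ ?_ j
          · rfl
          · intro l; rfl
      rw [this]
  · constructor
    · rintro ⟨x, hx⟩
      have := (h (Fin.cons x v)).1 (by simpa [Fin.tail_cons] using hx)
      obtain ⟨a, ha⟩ := this
      exact ⟨max a x, x, le_max_right _ _, by
        simpa [Fin.tail_cons] using m _ _ _ (le_max_left a x) ha⟩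
    · rintro ⟨a, x, _, hx⟩
      refine ⟨x, ?_⟩
      have := (h (Fin.cons x v)).2 ⟨a, by simpa [Fin.tail_cons] using hx⟩
      simpa [Fin.tail_cons] using this

/-- Finite conjunctions. -/
theorem IsDelta0.finsetAll {k : ℕ} {ι : Type*} (s : Finset ι) (P : ι → (Fin k → M) → Prop)
    (h : ∀ i ∈ s, IsDelta0 (P i)) : IsDelta0 (fun v => ∀ i ∈ s, P i v) := by
  classical
  induction s using Finset.induction_on with
  | empty => exact IsDelta0.true.congr fun v => by simp
  | insert a s ha ih =>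
    refine ((h a (Finset.mem_insert_self _ _)).and
      (ih fun i hi => h i (Finset.mem_insert_of_mem hi))).congr fun v => ?_
    simp

/-- Finite disjunctions. -/
theorem IsDelta0.finsetEx {k : ℕ} {ι : Type*} (s : Finset ι) (P : ι → (Fin k → M) → Prop)
    (h : ∀ i ∈ s, IsDelta0 (P i)) : IsDelta0 (fun v => ∃ i ∈ s, P i v) := by
  refine (IsDelta0.finsetAll s (fun i v => ¬ P i v) fun i hi => (h i hi).not).not.congr fun v => ?_
  push Not; rfl

end Pool.Agent.BSig
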