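import Pool.Agent.Helper37_BSig.Form2

/-!
# Statements of the modules
-/

namespace Pool.Agent.BSig

open Filter Cardinal

/-! ## Pure combinatorics of sets of literals `(x, b) : X × Bool` -/

/-- Conflict: some literal of `F` has its negation in `s`. -/
def Conf {X : Type} (F s : Set (X × Bool)) : Prop := ∃ x b, (x, b) ∈ F ∧ (x, !b) ∈ s

/-- Consistent sets of literals (partial functions). -/
def Consis {X : Type} (c : Set (X × Bool)) : Prop := ¬ Conf c c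

/-- The family of the sets `F \ ρ`, `ρ ⊆ F ∈ 𝓕`, has arbitrarily large finite subfamilies with
pairwise disjoint sets of labels. -/
def Big {X : Type} (𝓕 : Set (Finset (X × Bool))) (ρ : Finset (X × Bool)) : Prop :=
  ∀ k : ℕ, ∃ f : Fin k → Finset (X × Bool), (∀ i, f i ∈ 𝓕 ∧ ρ ⊆ f i) ∧
    ∀ i j, i ≠ j → ∀ p ∈ f i, p ∉ ρ → ∀ q ∈ f j, q ∉ ρ → p.1 ≠ q.1

/-- Freshness: if the family is `Big` then it has members avoiding any small set of labels. -/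
def FreshFam {X : Type} (𝓕 : Set (Finset (X × Bool))) : Prop :=
  ∀ ρ : Finset (X × Bool), Big 𝓕 ρ → ∀ Y : Set X, #Y < continuum →
    ∃ F ∈ 𝓕, ρ ⊆ F ∧ ∀ p ∈ F, p ∉ ρ → p.1 ∉ Y

/-- C1: Lemma D. -/
def LemmaD : Prop :=
  ∀ (X : Type) (l : ℕ) (𝓕 : Set (Finset (X × Bool))), (∀ F ∈ 𝓕, F.card ≤ l) →
    ∀ c : Set (X × Bool), Consis c →
    (∀ s : Finset (X × Bool), Consis (s : Set (X × Bool)) → ¬ Conf (s : Set (X × Bool)) c →
      ∃ F ∈ 𝓕, ¬ Conf (F : Set (X × Bool)) s) →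
    ∃ r : Finset (X × Bool), (r : Set (X × Bool)) ⊆ c ∧
      ∀ s : Finset (X × Bool), Consis (s : Set (X × Bool)) → r ⊆ s →
        ∃ F ∈ 𝓕, ¬ Conf (F : Set (X × Bool)) s

/-- C2: Lemma K. -/
def LemmaK : Prop :=
  ∀ (X : Type) (l : ℕ) (𝓕 : Set (Finset (X × Bool))), (∀ F ∈ 𝓕, F.card ≤ l) → FreshFam 𝓕 →
    ∀ c : Set (X × Bool), #c < continuum → (∀ F ∈ 𝓕, Conf (F : Set (X × Bool)) c) →
    ∃ s : Finset (X × Bool), (s : Set (X × Bool)) ⊆ c ∧ ∀ F ∈ 𝓕, Conf (F : Set (X × Bool)) s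

/-- C3: limits of killers. -/
def LemmaLim : Prop :=
  ∀ (X : Type) (𝓕 : ℕ → Set (Finset (X × Bool))), (∀ l, 𝓕 l ⊆ 𝓕 (l + 1)) →
    ∀ (c : Set (X × Bool)) (s : ℕ → Finset (X × Bool)),
    (∀ l, Consis (s l : Set (X × Bool)) ∧ ¬ Conf (s l : Set (X × Bool)) c ∧
      ∀ F ∈ 𝓕 l, Conf (F : Set (X × Bool)) (s l)) →
    ∃ S : Set (X × Bool), S.Countable ∧ Consis S ∧ ¬ Conf S c ∧
      ∀ l, ∀ F ∈ 𝓕 l, Conf (F : Set (X × Bool)) S

/-- The graph of the characteristic function of `G`, as a set of literals. -/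
def gr {X : Type} (G : Set X) : Set (X × Bool) := {p | p.2 = true ↔ p.1 ∈ G}

/-- C4: generic sets. `R` is the set of requirements, `O r` the sets of literals ensuring `r`. -/
def LemmaGen : Prop :=
  ∀ (X R : Type), #X = continuum → #R ≤ continuum →
    ∀ O : R → Set (Set (X × Bool)), (∀ r, ∀ c c', c ∈ O r → c ⊆ c' → c' ∈ O r) →
    (∀ (r : R) (c : Set (X × Bool)), Consis c → #c < continuum →
      ∃ c', c ⊆ c' ∧ Consis c' ∧ (c' \ c).Countable ∧ c' ∈ O r) →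
    ∃ G : Set X, ∀ r, gr G ∈ O r

/-! ## Codes of finite sets of literals in the model -/

/-- The number of the literal `(x, b)`. -/
noncomputable def lit (p : MM × Bool) : MM := 2 * p.1 + (if p.2 then 1 else 0)

/-- The set of literals coded by `F`. -/
def LS (F : MM) : Set (MM × Bool) := {p | Mem (lit p) F}

/-- `F` codes the finite set `S` of literals. -/
def Rep (F : MM) (S : Finset (MM × Bool)) : Prop := (S : Set (MM × Bool)) = LS F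

/-- C5: basic facts about codes. -/
def RepBasics : Prop :=
  (∀ u : MM, ∃ p, u = lit p) ∧ (∀ p q, lit p = lit q → p = q) ∧
  (∀ S, ∃ F, Rep F S) ∧ (∀ F F' S, Rep F S → Rep F' S → F = F') ∧
  (∀ F s, Cfl F s ↔ Conf (LS F) (LS s)) ∧
  (∀ (F : MM) (l : ℕ), Crd F l ↔ ∃ S, Rep F S ∧ S.card ≤ l) ∧
  (∀ F l l', l ≤ l' → Crd F l → Crd F l')

/-- Derivations of `t` of level `l`, as finite sets of literals. -/
def Fam (φ : (Fin 5 → MM) → Prop) (l : ℕ) (t : MM) : Set (Finset (MM × Bool)) :=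
  {S | S.card ≤ l ∧ Consis (S : Set (MM × Bool)) ∧
    ∃ F, Rep F S ∧ F ≤ aa l ∧ ∀ m : ℕ, Der φ (aa l) l m F t}

/-- C6: killers and `Kil`. -/
def KilStmt : Prop :=
  ∀ φ : (Fin 5 → MM) → Prop, IsDelta0 φ →
    (∀ l t, Fam φ l t ⊆ Fam φ (l + 1) t) ∧
    (∀ α k y y' F t, y' ≤ y → Der φ α k y F t → Der φ α k y' F t) ∧
    (∀ (l : ℕ) (t : MM) (F : MM), (∀ m : ℕ, Der φ (aa l) l m F t) ↔
      ∃ y, Infl y ∧ Der φ (aa l) l y F t) ∧
    (∀ (l : ℕ) (t s : MM), (∀ S ∈ Fam φ l t, Conf (S : Set (MM × Bool)) (LS s)) ↔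
      ∃ m : ℕ, Kil φ (aa l) l m t s) ∧
    (∀ α l m m' t s, m ≤ m' → Kil φ α l m t s → Kil φ α l m' t s)

/-- Forcing: no finite consistent set of literals containing `R` kills the derivations of `t` of
level `l`. -/
def Forces (φ : (Fin 5 → MM) → Prop) (l : ℕ) (R : Finset (MM × Bool)) (t : MM) : Prop :=
  ∀ s : Finset (MM × Bool), Consis (s : Set (MM × Bool)) → R ⊆ s →
    ∃ F ∈ Fam φ l t, ¬ Conf (F : Set (MM × Bool)) s

/-- C7: forcing and `Frc`. -/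
def FrcStmt : Prop :=
  ∀ φ : (Fin 5 → MM) → Prop, IsDelta0 φ → ∀ (l : ℕ) (R : Finset (MM × Bool)) (r t : MM),
    Rep r R → ((∃ y, Infl y ∧ Frc φ (aa l) l y r t) ↔ Forces φ l R t)

/-- Extension of a finite vector by zeros. -/
noncomputable def ext {P : ℕ} (v : Fin P → MM) : ℕ → MM :=
  fun p => if h : p < P then v ⟨p, h⟩ else 0

/-- C8: fresh realization of a countable decreasing sequence of internal conditions on vectors
`v : ℕ → MM` (the `N`-th condition depends on the coordinates `< P N`). -/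
def FreshReal : Prop :=
  ∀ (P : ℕ → ℕ) (R : ℕ → (ℕ → MM) → Prop) (Free : Set ℕ),
    (∀ N, P N ≤ P (N + 1)) →
    (∀ N v v', (∀ p < P N, v p = v' p) → R N v → R N v') →
    (∀ N, IntP (fun v : Fin (P N) → MM => R N (ext v))) →
    (∀ N v, R (N + 1) v → R N v) →
    (∀ N, ∃ b : ℕ, ∀ v, R N v → ∀ p < P N, v p ≤ aa b) →
    (∀ N K : ℕ, ∃ f : ℕ → ℕ → MM, (∀ k < K, R N (f k)) ∧
      ∀ k < K, ∀ k' < K, k ≠ k' → ∀ p ∈ Free, p < P N → ∀ p' ∈ Free, p' < P N →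
        f k p ≠ f k' p') →
    ∀ Y : Set MM, #Y < continuum →
      ∃ X : ℕ → MM, (∀ N, R N X) ∧ ∀ p ∈ Free, (∃ N, p < P N) → X p ∉ Y

/-- C9: freshness of the families of derivations. -/
def FamFresh : Prop :=
  ∀ φ : (Fin 5 → MM) → Prop, IsDelta0 φ → ∀ (l : ℕ) (t : MM), FreshFam (Fam φ l t)

/-- Cardinality facts. -/
def CardStmt : Prop := #MM = continuum ∧ ∀ ν : MM, Infl ν → #{x : MM | x < ν} = continuum

/-! ## The enumeration -/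

/-- Finite data describing a kind of tuples: level `l` and precision `m` of the derivation, number
`nF` of its positions, number `n` of all positions, conditions `C ∋ (j, lo, hi, q)`, signs `Sg`,
fixed positions `Fx ∋ (p, i)` (position `p` carries the label number `i`). -/
structure Dat where
  l : ℕ
  m : ℕ
  nF : ℕ
  n : ℕ
  C : Finset (ℕ × ℕ × ℕ × ℕ)
  Sg : Finset ℕ
  Fx : Finset (ℕ × ℕ)

/-- The literals of the vector `v` at the positions in `[lo, hi)`. -/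
def lits (Sg : Set ℕ) (v : ℕ → MM) (lo hi : ℕ) : Set (MM × Bool) :=
  {q | ∃ p, lo ≤ p ∧ p < hi ∧ q.1 = v p ∧ (q.2 = true ↔ p ∈ Sg)}

/-- The vector `v` together with `t` is a tuple of the kind `D`. -/
def RR (φ : (Fin 5 → MM) → Prop) (D : Dat) (v : ℕ → MM) (t : MM) : Prop :=
  t ≤ aa D.l ∧
  (∃ F : Finset (MM × Bool), (F : Set (MM × Bool)) ⊆ lits D.Sg v 0 D.nF ∧ F.card ≤ D.l ∧
    Consis (F : Set (MM × Bool)) ∧ ∃ f, Rep f F ∧ f ≤ aa D.l ∧ Der φ (aa D.l) D.l D.m f t) ∧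
  ∀ e ∈ D.C, ∃ s : Finset (MM × Bool), (s : Set (MM × Bool)) ⊆ lits D.Sg v e.2.1 e.2.2.1 ∧
    Consis (s : Set (MM × Bool)) ∧ ∃ f, Rep f s ∧ Kil φ (aa e.1) e.1 e.2.2.2 t f

/-- Position `p` is fixed. -/
def Dat.Fixed (D : Dat) (p : ℕ) : Prop := ∃ i, (p, i) ∈ D.Fx

/-- Admissible data: all blocks are made of positions `< n`, every position is fixed at most
once. -/
def Dat.Ok (D : Dat) : Prop :=
  D.nF ≤ D.n ∧ (∀ e ∈ D.C, e.2.2.1 ≤ D.n) ∧ (∀ q ∈ D.Fx, q.1 < D.n) ∧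
    ∀ p i j, (p, i) ∈ D.Fx → (p, j) ∈ D.Fx → i = j

/-- C9b: the relation `RR` is internal. -/
def RRInt : Prop :=
  ∀ φ : (Fin 5 → MM) → Prop, IsDelta0 φ → ∀ D : Dat, D.Ok →
    IntP (fun v : Fin (D.n + 1) → MM => RR φ D (fun p => ext v (p + 1)) (ext v 0))

/-- Closed sequences of labels. -/
def ClosedSeq (φ : (Fin 5 → MM) → Prop) (x : ℕ → MM) : Prop :=
  ∀ D : Dat, D.Ok → ∀ β : ℕ → ℕ, (∀ p < D.nF, D.l ≤ β p) →
    (∀ e ∈ D.C, ∀ p, e.2.1 ≤ p → p < e.2.2.1 → e.1 ≤ β p) →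
    ∀ (v : ℕ → MM) (t : MM), RR φ D v t → (∀ p < D.n, v p ≤ aa (β p)) →
    (∀ q ∈ D.Fx, v q.1 = x q.2) → (∀ p < D.n, ¬ D.Fixed p → ∀ i, v p ≠ x i) →
    ∀ K : ℕ, ∃ (v' : ℕ → ℕ → MM) (t' : ℕ → MM),
      (∀ k < K, RR φ D (v' k) (t' k) ∧ (∀ p < D.n, v' k p ≤ aa (β p)) ∧
        ∀ q ∈ D.Fx, v' k q.1 = x q.2) ∧
      ∀ k < K, ∀ k' < K, k ≠ k' → ∀ p < D.n, ¬ D.Fixed p → ∀ p' < D.n, ¬ D.Fixed p' →
        v' k p ≠ v' k' p'

/-- Natural version of the pairing function. -/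
def npr (x y : ℕ) : ℕ := (x + y) * (x + y) + x

/-- Natural code of a finite set of numbers. -/
def nset (s : Finset ℕ) : ℕ := ∑ x ∈ s, 2 ^ x

/-- The number of the data `D`, `i0`, `p`. -/
def dcode (D : Dat) (i0 p : ℕ) : ℕ :=
  npr D.l (npr D.m (npr D.nF (npr (nset (D.C.image fun e => npr e.1 (npr e.2.1 (npr e.2.2.1 e.2.2.2))))
    (npr (nset D.Sg) (npr (nset (D.Fx.image fun q => npr q.1 q.2)) (npr i0 p)))))) + 1

/-- Tuples, external version (`w` codes a partial function from positions to labels). -/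
def TupE (φ : (Fin 5 → MM) → Prop) (x : ℕ → MM) (D : Dat) (i0 : ℕ) (w : MM) : Prop :=
  Fun w ∧ (∀ p z, Mem (pr p z) w → (∀ q ∈ D.Fx, p = (q.1 : MM) → z = x q.2) ∧
    ((∀ q ∈ D.Fx, p ≠ (q.1 : MM)) → ∀ j < i0, z ≠ x j)) ∧
  ∃ t, t ≤ aa D.l ∧
    (∃ F, F ≤ aa D.l ∧ (LitSub F w (nset D.Sg : ℕ) 0 D.nF ∧ Crd F D.l ∧ ¬ Cfl F F ∧
      Der φ (aa D.l) D.l D.m F t)) ∧
    ∀ e ∈ D.C, ∃ s, s ≤ pow2 (2 * w + 2) ∧ (LitSub s w (nset D.Sg : ℕ) e.2.1 e.2.2.1 ∧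
      ¬ Cfl s s ∧ Kil φ (aa e.1) e.1 e.2.2.2 t s)

/-- `T` is a correct piece of the tower, long enough for the levels `≤ N`. -/
def GoodT (T : MM) (N : ℕ) : Prop := TowOK T ∧ ∀ j ≤ N, Mem (pr (j : MM) (aa j)) T

/-- `X` codes `x j` at the indices `j < i`. -/
def GoodX (X : MM) (x : ℕ → MM) (i : ℕ) : Prop := ∀ j < i, ∀ z, Mem (pr (j : MM) z) X ↔ z = x j

/-- C10a: comparison of `Tup` and `TupE`. -/
def TupCmp : Prop :=
  ∀ φ : (Fin 5 → MM) → Prop, IsDelta0 φ → ∀ (x : ℕ → MM) (D : Dat) (i0 : ℕ) (T X w : MM),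
    (∀ q ∈ D.Fx, q.2 < i0) → TowOK T → GoodX X x i0 →
    (Tup φ T X D.l D.m D.nF
        (nset (D.C.image fun e => npr e.1 (npr e.2.1 (npr e.2.2.1 e.2.2.2))) : ℕ)
        (nset D.Sg : ℕ) (nset (D.Fx.image fun q => npr q.1 q.2) : ℕ) i0 w ↔
      Mem (pr (D.l : MM) (aa D.l)) T ∧ (∀ e ∈ D.C, Mem (pr (e.1 : MM) (aa e.1)) T) ∧
        TupE φ x D i0 w)

/-- The external step: `z` is the label of the least tuple at position `p`. -/
def StpE (φ : (Fin 5 → MM) → Prop) (x : ℕ → MM) (D : Dat) (i0 p : ℕ) (z : MM) : Prop :=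
  ∃ w, TupE φ x D i0 w ∧ (∀ w', w' < w → ¬ TupE φ x D i0 w') ∧ Mem (pr (p : MM) z) w

/-- C10b: existence of the enumeration. -/
def EnumStmt : Prop :=
  ∀ φ : (Fin 5 → MM) → Prop, IsDelta0 φ → ∃ (x : ℕ → MM) (d : ℕ → ℕ),
    (∀ i, (d i = 0 ∧ x i = 0) ∨ ∃ (D : Dat) (i0 p : ℕ), D.Ok ∧ (∀ q ∈ D.Fx, q.2 < i0) ∧
      i0 ≤ i ∧ d i = dcode D i0 p ∧ StpE φ x D i0 p (x i)) ∧
    ∀ (D : Dat) (i0 p : ℕ), D.Ok → (∀ q ∈ D.Fx, q.2 < i0) → p < D.n → ∀ z,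
      StpE φ x D i0 p z → ∃ i, x i = z

/-- C10c: the enumeration is closed. -/
def ClosedStmt : Prop :=
  ∀ φ : (Fin 5 → MM) → Prop, IsDelta0 φ → ∀ x : ℕ → MM,
    (∀ (D : Dat) (i0 p : ℕ), D.Ok → (∀ q ∈ D.Fx, q.2 < i0) → p < D.n → ∀ z,
      StpE φ x D i0 p z → ∃ i, x i = z) → ClosedSeq φ x

/-- C10d: correctness of the formula `Run`. -/
def RunStmt : Prop :=
  ∀ φ : (Fin 5 → MM) → Prop, IsDelta0 φ → ∀ (x : ℕ → MM) (d : ℕ → ℕ),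
    (∀ i, (d i = 0 ∧ x i = 0) ∨ ∃ (D : Dat) (i0 p : ℕ), D.Ok ∧ (∀ q ∈ D.Fx, q.2 < i0) ∧
      i0 ≤ i ∧ d i = dcode D i0 p ∧ StpE φ x D i0 p (x i)) →
    ∀ E : MM, (∀ (i : ℕ) (z : MM), Mem (pr (i : MM) z) E ↔ z = d i) → ∀ n : ℕ,
      (∃ B T X, GoodT T n ∧ Run φ B T X E n ∧ GoodX X x n) ∧
      ∀ B T X, TowOK T → Run φ B T X E n → GoodX X x n

/-- C11: Lemma C. -/
def LemmaC : Prop :=
  ∀ φ : (Fin 5 → MM) → Prop, IsDelta0 φ → ∀ x : ℕ → MM, ClosedSeq φ x →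
    ∀ (T : Set MM) (c : Set (MM × Bool)), Consis c → #c < continuum →
    (∀ l t, ∀ F ∈ Fam φ l t, ¬ Conf (F : Set (MM × Bool)) c → t ∈ T) →
    (∀ t ∈ T, ∃ l, ∃ F ∈ Fam φ l t, ¬ Conf (F : Set (MM × Bool)) c) →
    (∀ t ∈ T, ∃ l, ∀ s : Finset (MM × Bool), Consis (s : Set (MM × Bool)) →
      ¬ Conf (s : Set (MM × Bool)) c → ∃ F ∈ Fam φ l t, ¬ Conf (F : Set (MM × Bool)) s) →
    ∀ t ∈ T, ∃ (l : ℕ) (r : Finset (MM × Bool)), (r : Set (MM × Bool)) ⊆ c ∧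
      (∀ p ∈ r, ∃ i, p.1 = x i) ∧ Forces φ l r t

/-- The sets `{t : ∃ n standard, ∃ y infinite, Ψ(n, y, t)}`, `Ψ` being `Σ₁`. -/
def InW (T : Set MM) : Prop :=
  ∃ Ψ : (Fin 3 → MM) → Prop, IsSigma 1 Ψ ∧
    ∀ t, t ∈ T ↔ ∃ (n : ℕ) (y : MM), Infl y ∧ Ψ ![(n : MM), y, t]

/-- C12: unbeatable conditions compute `T`. -/
def UnbeatW : Prop :=
  ∀ φ : (Fin 5 → MM) → Prop, IsDelta0 φ →
    ∀ (T : Set MM) (c : Set (MM × Bool)), Consis c → #c < continuum →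
    (∀ l t, ∀ F ∈ Fam φ l t, ¬ Conf (F : Set (MM × Bool)) c → t ∈ T) →
    (∀ t ∈ T, ∃ l, ∃ F ∈ Fam φ l t, ¬ Conf (F : Set (MM × Bool)) c) →
    (∀ t ∈ T, ∃ l, ∀ s : Finset (MM × Bool), Consis (s : Set (MM × Bool)) →
      ¬ Conf (s : Set (MM × Bool)) c → ∃ F ∈ Fam φ l t, ¬ Conf (F : Set (MM × Bool)) s) →
    InW T

/-- C13: every small condition can be extended so as to beat `φ`. -/
def BeatStmt : Prop :=
  ∀ φ : (Fin 5 → MM) → Prop, IsDelta0 φ → ∀ T : Set MM, ¬ InW T →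
    ∀ c : Set (MM × Bool), Consis c → #c < continuum →
    ∃ c' : Set (MM × Bool), c ⊆ c' ∧ Consis c' ∧ (c' \ c).Countable ∧
      ∀ c'' : Set (MM × Bool), c' ⊆ c'' → Consis c'' →
        T ≠ {t | ∃ l, ∃ F ∈ Fam φ l t, (F : Set (MM × Bool)) ⊆ c''}

/-! ## Reducibility -/

/-- R: basic properties of strong reducibility in the model. -/
def RedBasics : Prop :=
  (∀ A : Set MM, Red A A) ∧ (∀ A B C : Set MM, Red A B → Red B C → Red A C) ∧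
  (∀ A B : Set MM, Red A (jn A B)) ∧ (∀ A B : Set MM, Red B (jn A B)) ∧
  ∀ A B C : Set MM, Red A C → Red B C → Red (jn A B) C

/-- O: the standard part. `n` is standard iff a tower of length `n` exists. -/
def OmegaBasics : Prop :=
  (∀ n : MM, n ∈ omega MM ↔ ∃ T z, TowOK T ∧ Mem (pr n z) T) ∧
  (∀ N : ℕ, ∃ T, GoodT T N) ∧ (∀ T, TowOK T → ∀ (j : ℕ) (z : MM), Mem (pr (j : MM) z) T → z = aa j) ∧
  IsSigmaCut 1 (omega MM) ∧ ¬ Red (omega MM) ∅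

/-- S: the schemes. -/
def SchemeStmt : Prop := BSigma MM 1 ∧ ¬ ISigma MM 1 ∧ ISigma MM 0

/-- Q: coding of sequences. -/
def CodeStmt : Prop :=
  (∀ X : Set ℕ, ∃ F : MM, ∀ m : ℕ, Mem (m : MM) F ↔ m ∈ X) ∧
  (∀ d : ℕ → ℕ, ∃ E : MM, ∀ (i : ℕ) (z : MM), Mem (pr (i : MM) z) E ↔ z = d i) ∧
  ∀ (x : ℕ → MM) (b : MM), (∀ i, x i ≤ b) →
    ∃ E : MM, ∀ (i : ℕ) (z : MM), Mem (pr (i : MM) z) E ↔ z = x i

/-- `A` is reducible to `B ⊕ ω` through the matrix `φ`. -/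
def RedVia (φ : (Fin 5 → MM) → Prop) (A B : Set MM) : Prop :=
  IsDelta0 φ ∧ ∀ K i : MM, (i = 0 ∨ i = 1) → (decode K ⊆ sgn A i ↔
    ∃ p q : MM, (∃ w, φ ![w, K, i, p, q]) ∧ decode p ⊆ jn B (omega MM) ∧
      decode q ⊆ (jn B (omega MM))ᶜ)

/-- J: derivations from `B ⊕ ω`. -/
def DerJoin : Prop :=
  (∀ A B : Set MM, Red A (jn B (omega MM)) → ∃ φ, RedVia φ A B) ∧
  ∀ φ (A B : Set MM), RedVia φ A B → ∀ t, Fact A t ↔
    ∃ (l : ℕ) (y F : MM), Infl y ∧ Tr B F ∧ F ≤ aa l ∧ Der φ (aa l) l y F t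

/-- All `M`-finite subsets of `G` and of its complement are finite. -/
def BI (G : Set MM) : Prop := ∀ K : MM, (decode K ⊆ G ∨ decode K ⊆ Gᶜ) → (decode K).Finite

/-- JB: derivations from `G ⊕ ω` for bi-immune `G`. -/
def DerBI : Prop :=
  ∀ φ (A G : Set MM), RedVia φ A G → BI G →
    {t | Fact A t} = {t | ∃ l, ∃ F ∈ Fam φ l t, (F : Set (MM × Bool)) ⊆ gr G}

/-- SG: the sigma lemma. -/
def SigmaLemma : Prop :=
  ∀ X : Set MM, ¬ Red (omega MM) X → ∀ S : MM,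
    (∀ n : ℕ, ∀ z, (Mem (pr (n : MM) (2 * z + 1)) S → z ∈ X) ∧
      (Mem (pr (n : MM) (2 * z)) S → z ∉ X)) →
    ∃ e, Infl e ∧ ∀ y ≤ e, ∀ z, (Mem (pr y (2 * z + 1)) S → z ∈ X) ∧
      (Mem (pr y (2 * z)) S → z ∉ X)

/-- CL: Claim 1 (the whole order). -/
def Claim1 : Prop :=
  ∀ B C : Set MM, Red C (jn B (omega MM)) → ¬ Red (omega MM) B → ¬ Red (omega MM) C → Red C B

/-- FW: if the set of true facts of `A` is in `W` then `A ≤ ω`. -/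
def FactW : Prop := ∀ A : Set MM, InW {t | Fact A t} → Red A (omega MM)

/-- RH: the set `H = G xor T_A`. -/
def RedXor : Prop :=
  ∀ A G H : Set MM, (∀ t, t ∈ H ↔ ¬ (t ∈ G ↔ Fact A t)) →
    (BI H → Red H (jn G A)) ∧ Red A (jn G H)

/-- CD: there are at most continuum many `Δ₀` relations. -/
def CardDelta : Prop := #{φ : (Fin 5 → MM) → Prop // IsDelta0 φ} ≤ continuum

/-- CO: Claim 2 (the cone). -/
def Claim2 : Prop :=
  ∀ A : Set MM, ¬ Red A (omega MM) → ∃ G H : Set MM,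
    ¬ Red A (jn G (omega MM)) ∧ ¬ Red A (jn H (omega MM)) ∧ Red H (jn G A) ∧ Red A (jn G H)

end Pool.Agent.BSig
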