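import Mathlib

/-!
# Definitions for MP_b3d4e2_lc

Models of `PA⁻` with exponentiation, `Σ_n`-definable relations (parameters allowed), the schemes
`BΣ_n` and `IΣ_n`, cuts, `M`-finite sets, strong reducibility, degrees.
-/

namespace Pool.Agent.BSig

/-- A model of `PA⁻` with exponentiation `x ↦ 2^x` (the non-negative part of a discretely ordered
commutative ring, with a function `pow2` obeying the recursion equations of exponentiation). -/
class PAExp (M : Type) extends CommSemiring M, LinearOrder M where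
  zero_le' : ∀ x : M, 0 ≤ x
  discrete : ∀ x y : M, x < y ↔ x + 1 ≤ y
  add_le_add' : ∀ x y z : M, x ≤ y → x + z ≤ y + z
  mul_le_mul' : ∀ x y z : M, x ≤ y → x * z ≤ y * z
  add_cancel' : ∀ x y z : M, x + z = y + z → x = y
  mul_pos' : ∀ x y : M, 0 < x → 0 < y → 0 < x * y
  exists_add : ∀ x y : M, x ≤ y → ∃ z, x + z = y
  zero_ne_one' : (0 : M) ≠ 1
  pow2 : M → M
  pow2_zero : pow2 0 = 1
  pow2_succ : ∀ x : M, pow2 (x + 1) = 2 * pow2 x

export PAExp (pow2)

section General

variable {M : Type} [PAExp M]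

/-- The functions `M^k → M` given by terms of the language `0, 1, +, ·, 2^x` with parameters. -/
inductive IsTerm : ∀ {k : ℕ}, ((Fin k → M) → M) → Prop
  | param {k : ℕ} (c : M) : IsTerm (k := k) (fun _ => c)
  | var {k : ℕ} (i : Fin k) : IsTerm (fun v => v i)
  | add {k : ℕ} {f g : (Fin k → M) → M} : IsTerm f → IsTerm g → IsTerm (fun v => f v + g v)
  | mul {k : ℕ} {f g : (Fin k → M) → M} : IsTerm f → IsTerm g → IsTerm (fun v => f v * g v)
  | pow2 {k : ℕ} {f : (Fin k → M) → M} : IsTerm f → IsTerm (fun v => PAExp.pow2 (f v))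

/-- The relations on `M` definable by bounded (`Δ₀`) formulas with parameters: generated from
equalities and inequalities of terms by negation, conjunction and bounded quantification
`∀ x ≤ t`.  (The quantified variable is put in front of the list of variables.) -/
inductive IsDelta0 : ∀ {k : ℕ}, ((Fin k → M) → Prop) → Prop
  | eq {k : ℕ} {f g : (Fin k → M) → M} : IsTerm f → IsTerm g → IsDelta0 (fun v => f v = g v)
  | le {k : ℕ} {f g : (Fin k → M) → M} : IsTerm f → IsTerm g → IsDelta0 (fun v => f v ≤ g v)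
  | not {k : ℕ} {P : (Fin k → M) → Prop} : IsDelta0 P → IsDelta0 (fun v => ¬ P v)
  | and {k : ℕ} {P Q : (Fin k → M) → Prop} :
      IsDelta0 P → IsDelta0 Q → IsDelta0 (fun v => P v ∧ Q v)
  | ball {k : ℕ} {f : (Fin k → M) → M} {Q : (Fin (k + 1) → M) → Prop} :
      IsTerm f → IsDelta0 Q → IsDelta0 (fun v => ∀ x, x ≤ f v → Q (Fin.cons x v))

/-- The relations definable by `Σ_n` formulas with parameters: `Σ_0 = Δ_0`, and `Σ_{n+1}`
relations are the projections of complements of `Σ_n` relations (that is, of `Π_n` relations). -/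
def IsSigma : ℕ → ∀ {k : ℕ}, ((Fin k → M) → Prop) → Prop
  | 0, _, P => IsDelta0 P
  | n + 1, k, P => ∃ (j : ℕ) (Q : (Fin (j + k) → M) → Prop), IsSigma n Q ∧
      ∀ v, P v ↔ ∃ w : Fin j → M, ¬ Q (Fin.append w v)

variable (M) in
/-- The scheme `BΣ_n`. -/
def BSigma (n : ℕ) : Prop :=
  ∀ P : (Fin 2 → M) → Prop, IsSigma n P → ∀ a : M,
    (∀ x < a, ∃ y, P ![x, y]) → ∃ t, ∀ x < a, ∃ y < t, P ![x, y]

variable (M) in
/-- The scheme `IΣ_n`. -/
def ISigma (n : ℕ) : Prop :=
  ∀ P : (Fin 1 → M) → Prop, IsSigma n P →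
    P ![0] → (∀ x, P ![x] → P ![x + 1]) → ∀ x, P ![x]

variable (M) in
/-- `BΣ_n` models: `BΣ_n` holds, `IΣ_n` fails. -/
def IsBModel (n : ℕ) : Prop := BSigma M n ∧ ¬ ISigma M n

/-- Cuts: nonempty proper subsets closed downwards and under successor. -/
def IsCut (I : Set M) : Prop :=
  I.Nonempty ∧ I ≠ Set.univ ∧ (∀ x ∈ I, ∀ y ≤ x, y ∈ I) ∧ ∀ x ∈ I, x + 1 ∈ I

/-- `Σ_n` cuts. -/
def IsSigmaCut (n : ℕ) (I : Set M) : Prop :=
  IsCut I ∧ IsSigma n (fun v : Fin 1 → M => v 0 ∈ I)

/-- `x` belongs to the `M`-finite set with code `a`: the binary digit of `a` at `2^x` is `1`. -/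
def Mem (x a : M) : Prop := ∃ q r : M, a = q * pow2 (x + 1) + pow2 x + r ∧ r < pow2 x

/-- The `M`-finite set with code `a`. -/
def decode (a : M) : Set M := {x | Mem x a}

/-- `A^1 = A` and `A^0 = M \ A`. -/
def sgn (A : Set M) (i : M) : Set M := {x | (i = 1 ∧ x ∈ A) ∨ (i = 0 ∧ x ∉ A)}

/-- `A` is strongly reducible to `B`. -/
def Red (A B : Set M) : Prop :=
  ∃ Φ : (Fin 4 → M) → Prop, IsSigma 1 Φ ∧ ∀ K i : M, (i = 0 ∨ i = 1) →
    (decode K ⊆ sgn A i ↔ ∃ p q : M, Φ ![K, i, p, q] ∧ decode p ⊆ B ∧ decode q ⊆ Bᶜ)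

variable (M) in
/-- Degrees: subsets of `M` modulo mutual strong reducibility. -/
def Deg : Type := Quot (fun A B : Set M => Red A B ∧ Red B A)

/-- The degree of a set. -/
def deg (A : Set M) : Deg M := Quot.mk _ A

/-- The induced relation on degrees. -/
instance : LE (Deg M) := ⟨fun a b => ∃ A B : Set M, deg A = a ∧ deg B = b ∧ Red A B⟩

/-- The degrees above `deg I`, with the induced relation. -/
def DegGE (I : Set M) : Type := {a : Deg M // deg I ≤ a}

instance (I : Set M) : LE (DegGE I) := ⟨fun a b => a.1 ≤ b.1⟩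

instance : FirstOrder.Language.order.Structure (Deg M) := FirstOrder.Language.orderStructure _

instance (I : Set M) : FirstOrder.Language.order.Structure (DegGE I) :=
  FirstOrder.Language.orderStructure _

variable (M) in
/-- The standard part. -/
def omega : Set M := Set.range (fun n : ℕ => (n : M))

variable (M) in
/-- Countably saturated `BΣ_n` models. -/
def IsCountSat (n : ℕ) : Prop :=
  IsBModel M n ∧ IsSigmaCut n (omega M) ∧
    ∀ X : Set ℕ, ∃ F : M, ∀ m : ℕ, Mem (m : M) F ↔ m ∈ X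

end General

/-- The final statement. -/
def FinalStatement : Prop :=
  ∃ (M : Type) (_ : PAExp M), IsCountSat M 1 ∧ ISigma M 0 ∧
    ∃ I : Set M, IsSigmaCut 1 I ∧
      ¬ (FirstOrder.Language.ElementarilyEquivalent FirstOrder.Language.order (Deg M) (DegGE I))

end Pool.Agent.BSig
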