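import Pool.Agent.Helper37_BSig.Form

/-!
# Bounded formulas used in the proof, second part
-/

namespace Pool.Agent.BSig

open Filter

/-- `F` has at most `l` elements: there is (the code of) a map from `F` onto a subset of `[0, l)`
which is injective. -/
def Crd (F l : MM) : Prop := ∃ h, h ≤ pow2 (pr F l + 1) ∧
  ((∀ x, x ≤ F → Mem x F → ∃ j, j < l ∧ Mem (pr x j) h) ∧
    ∀ x, x ≤ F → ∀ x', x' ≤ F → ∀ j, j < l → Mem (pr x j) h → Mem (pr x' j) h → x = x')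

/-- Two sets of literals are in conflict. -/
def Cfl (F s : MM) : Prop := ∃ x, x ≤ F ∧
  ((Mem (2 * x) F ∧ Mem (2 * x + 1) s) ∨ (Mem (2 * x + 1) F ∧ Mem (2 * x) s))

/-- `s` kills all derivations of `t` (level `l`, precision `m`, bound `α`). -/
def Kil (φ : (Fin 5 → MM) → Prop) (α l m t s : MM) : Prop :=
  ∀ F, F ≤ α → (Crd F l ∧ ¬ Cfl F F ∧ Der φ α l m F t) → Cfl F s

/-- `r` forces `t` (level `l`, precision `m`, bound `α`): no consistent set of at most `m`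
literals containing `r` kills the derivations of `t`. -/
def Frc (φ : (Fin 5 → MM) → Prop) (α l m r t : MM) : Prop :=
  ∀ s, s ≤ pow2 (α + 2) + r → ((∀ x, x ≤ r → Mem x r → Mem x s) ∧ Crd s m ∧ ¬ Cfl s s) →
    ¬ Kil φ α l m t s

/-- The elements of `s` are literals given by the labels of `w` at the positions in `[lo, hi)`,
signs given by `Sg`. -/
def LitSub (s w Sg lo hi : MM) : Prop := ∀ u, u ≤ s → Mem u s → ∃ p, p ≤ w ∧ ∃ x, x ≤ w ∧
  (lo ≤ p ∧ p < hi ∧ Mem (pr p x) w ∧ ((Mem p Sg ∧ u = 2 * x + 1) ∨ (¬ Mem p Sg ∧ u = 2 * x)))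

/-- `w` codes a partial function. -/
def Fun (w : MM) : Prop := ∀ p, p ≤ w → ∀ x, x ≤ w → ∀ x', x' ≤ w →
  (Mem (pr p x) w → Mem (pr p x') w → x = x')

/-- The labels of `w` at positions mentioned in `Fx` are the corresponding values of `X`, the
other ones are not among the values of `X` at indices `< i`. -/
def FixFree (w X Fx i : MM) : Prop := ∀ p, p ≤ w → ∀ x, x ≤ w → Mem (pr p x) w →
  ((∀ j, j ≤ Fx → Mem (pr p j) Fx → Mem (pr j x) X) ∧
    ((∀ j, j ≤ Fx → ¬ Mem (pr p j) Fx) → ∀ j, j < i → ¬ Mem (pr j x) X))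

/-- The tuples. `l` = level of the derivation, `m` its precision, `nF` = number of positions of
the derivation, `C` = set of conditions `⟨j, ⟨lo, ⟨hi, m⟩⟩⟩`, `Sg` = signs. -/
def Tup (φ : (Fin 5 → MM) → Prop) (T X l m nF C Sg Fx i w : MM) : Prop :=
  Fun w ∧ FixFree w X Fx i ∧ ∃ α, α ≤ T ∧ (Mem (pr l α) T ∧ ∃ t, t ≤ α ∧
    ((∃ F, F ≤ α ∧ (LitSub F w Sg 0 nF ∧ Crd F l ∧ ¬ Cfl F F ∧ Der φ α l m F t)) ∧
      ∀ e, e ≤ C → Mem e C → ∃ j, j ≤ e ∧ ∃ lo, lo ≤ e ∧ ∃ hi, hi ≤ e ∧ ∃ q, q ≤ e ∧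
        (e = pr j (pr lo (pr hi q)) ∧ ∃ β, β ≤ T ∧ (Mem (pr j β) T ∧ ∃ s, s ≤ pow2 (2 * w + 2) ∧
          (LitSub s w Sg lo hi ∧ ¬ Cfl s s ∧ Kil φ β j q t s)))))

/-- The least tuple. -/
def Lst (φ : (Fin 5 → MM) → Prop) (T X l m nF C Sg Fx i w : MM) : Prop :=
  Tup φ T X l m nF C Sg Fx i w ∧ ∀ w', w' < w → ¬ Tup φ T X l m nF C Sg Fx i w'

/-- One step of the enumeration: `δ` codes the data, `B` is a bound. -/
def Stp (φ : (Fin 5 → MM) → Prop) (B T X δ i x : MM) : Prop :=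
  (δ = 0 ∧ x = 0) ∨ ∃ l, l ≤ δ ∧ ∃ m, m ≤ δ ∧ ∃ nF, nF ≤ δ ∧ ∃ C, C ≤ δ ∧ ∃ Sg, Sg ≤ δ ∧
    ∃ Fx, Fx ≤ δ ∧ ∃ i0, i0 ≤ δ ∧ ∃ p, p ≤ δ ∧
    (δ = pr l (pr m (pr nF (pr C (pr Sg (pr Fx (pr i0 p)))))) + 1 ∧ i0 ≤ i ∧
      ∃ w, w ≤ B ∧ (Lst φ T X l m nF C Sg Fx i0 w ∧ Mem (pr p x) w))

/-- A run of length `n` of the enumeration with data sequence `E`. -/
def Run (φ : (Fin 5 → MM) → Prop) (B T X E n : MM) : Prop :=
  ∀ i, i < n → ((∃ x, x ≤ X ∧ Mem (pr i x) X) ∧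
    ∀ x, x ≤ X → Mem (pr i x) X → ∃ δ, δ ≤ E ∧ (Mem (pr i δ) E ∧ Stp φ B T X δ i x))

/-- The literals in `r` are given by the labels in the run and the value sets `V0`, `V1`. -/
def LitRun (r X V0 V1 n : MM) : Prop := ∀ u, u ≤ r → Mem u r → ∃ i, i < n ∧ ∃ x, x ≤ X ∧
  (Mem (pr i x) X ∧ ((Mem i V1 ∧ u = 2 * x + 1) ∨ (Mem i V0 ∧ u = 2 * x)))

section Delta0

variable {n : ℕ}

theorem IsTerm.two_mul {f : (Fin n → MM) → MM} (h : IsTerm f) : IsTerm (fun v => 2 * f v) :=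
  (IsTerm.param 2).mul h

theorem IsTerm.add_nat {f : (Fin n → MM) → MM} (h : IsTerm f) (c : MM) :
    IsTerm (fun v => f v + c) := h.add (IsTerm.param c)

theorem IsDelta0.crd {F l : (Fin n → MM) → MM} (hF : IsTerm F) (hl : IsTerm l) :
    IsDelta0 (fun v => Crd (F v) (l v)) := by
  refine IsDelta0.ex ((IsTerm.pr hF hl).add_nat 1).pow2 ?_
  refine IsDelta0.and ?_ ?_
  · refine IsDelta0.all hF.tail ?_
    refine (IsDelta0.mem (IsTerm.var 0) hF.tail.tail).imp ?_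
    refine IsDelta0.exLt hl.tail.tail ?_
    exact IsDelta0.mem (IsTerm.pr (IsTerm.var 1) (IsTerm.var 0)) (IsTerm.var 2)
  · refine IsDelta0.all hF.tail ?_
    refine IsDelta0.all hF.tail.tail ?_
    refine IsDelta0.allLt hl.tail.tail.tail ?_
    refine (IsDelta0.mem (IsTerm.pr (IsTerm.var 2) (IsTerm.var 0)) (IsTerm.var 3)).imp ?_
    refine (IsDelta0.mem (IsTerm.pr (IsTerm.var 1) (IsTerm.var 0)) (IsTerm.var 3)).imp ?_
    exact IsDelta0.eq (IsTerm.var 2) (IsTerm.var 1)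

theorem IsDelta0.cfl {F s : (Fin n → MM) → MM} (hF : IsTerm F) (hs : IsTerm s) :
    IsDelta0 (fun v => Cfl (F v) (s v)) := by
  refine IsDelta0.ex hF ?_
  refine IsDelta0.or ?_ ?_
  · exact (IsDelta0.mem (IsTerm.var 0).two_mul hF.tail).and
      (IsDelta0.mem ((IsTerm.var 0).two_mul.add_nat 1) hs.tail)
  · exact (IsDelta0.mem ((IsTerm.var 0).two_mul.add_nat 1) hF.tail).and
      (IsDelta0.mem (IsTerm.var 0).two_mul hs.tail)

variable {φ : (Fin 5 → MM) → Prop} (hφ : IsDelta0 φ)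
include hφ

theorem IsDelta0.kil {α l m t s : (Fin n → MM) → MM} (hα : IsTerm α) (hl : IsTerm l)
    (hm : IsTerm m) (ht : IsTerm t) (hs : IsTerm s) :
    IsDelta0 (fun v => Kil φ (α v) (l v) (m v) (t v) (s v)) := by
  refine IsDelta0.all hα ?_
  refine IsDelta0.imp ?_ (IsDelta0.cfl (IsTerm.var 0) hs.tail)
  refine (IsDelta0.crd (IsTerm.var 0) hl.tail).and ?_
  refine (IsDelta0.cfl (IsTerm.var 0) (IsTerm.var 0)).not.and ?_
  exact hφ.der hα.tail hl.tail hm.tail (IsTerm.var 0) ht.tail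

theorem IsDelta0.frc {α l m r t : (Fin n → MM) → MM} (hα : IsTerm α) (hl : IsTerm l)
    (hm : IsTerm m) (hr : IsTerm r) (ht : IsTerm t) :
    IsDelta0 (fun v => Frc φ (α v) (l v) (m v) (r v) (t v)) := by
  refine IsDelta0.all ((hα.add_nat 2).pow2.add hr) ?_
  refine IsDelta0.imp ?_ (IsDelta0.kil hφ hα.tail hl.tail hm.tail ht.tail (IsTerm.var 0)).not
  refine IsDelta0.and ?_ ((IsDelta0.crd (IsTerm.var 0) hm.tail).and
    (IsDelta0.cfl (IsTerm.var 0) (IsTerm.var 0)).not)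
  refine IsDelta0.all hr.tail ?_
  exact (IsDelta0.mem (IsTerm.var 0) hr.tail.tail).imp (IsDelta0.mem (IsTerm.var 0) (IsTerm.var 1))

omit hφ

theorem IsDelta0.litSub {s w Sg lo hi : (Fin n → MM) → MM} (hs : IsTerm s) (hw : IsTerm w)
    (hSg : IsTerm Sg) (hlo : IsTerm lo) (hhi : IsTerm hi) :
    IsDelta0 (fun v => LitSub (s v) (w v) (Sg v) (lo v) (hi v)) := by
  refine IsDelta0.all hs ?_
  refine (IsDelta0.mem (IsTerm.var 0) hs.tail).imp ?_
  refine IsDelta0.ex hw.tail ?_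
  refine IsDelta0.ex hw.tail.tail ?_
  -- 0 = x, 1 = p, 2 = u
  refine (IsDelta0.le hlo.tail.tail.tail (IsTerm.var 1)).and ?_
  refine (IsDelta0.lt (IsTerm.var 1) hhi.tail.tail.tail).and ?_
  refine (IsDelta0.mem (IsTerm.pr (IsTerm.var 1) (IsTerm.var 0)) hw.tail.tail.tail).and ?_
  refine IsDelta0.or ?_ ?_
  · exact (IsDelta0.mem (IsTerm.var 1) hSg.tail.tail.tail).and
      (IsDelta0.eq (IsTerm.var 2) ((IsTerm.var 0).two_mul.add_nat 1))
  · exact (IsDelta0.mem (IsTerm.var 1) hSg.tail.tail.tail).not.and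
      (IsDelta0.eq (IsTerm.var 2) (IsTerm.var 0).two_mul)

theorem IsDelta0.func {w : (Fin n → MM) → MM} (hw : IsTerm w) :
    IsDelta0 (fun v => Fun (w v)) := by
  refine IsDelta0.all hw ?_
  refine IsDelta0.all hw.tail ?_
  refine IsDelta0.all hw.tail.tail ?_
  refine (IsDelta0.mem (IsTerm.pr (IsTerm.var 2) (IsTerm.var 1)) hw.tail.tail.tail).imp ?_
  refine (IsDelta0.mem (IsTerm.pr (IsTerm.var 2) (IsTerm.var 0)) hw.tail.tail.tail).imp ?_
  exact IsDelta0.eq (IsTerm.var 1) (IsTerm.var 0)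

theorem IsDelta0.fixFree {w X Fx i : (Fin n → MM) → MM} (hw : IsTerm w) (hX : IsTerm X)
    (hFx : IsTerm Fx) (hi : IsTerm i) :
    IsDelta0 (fun v => FixFree (w v) (X v) (Fx v) (i v)) := by
  refine IsDelta0.all hw ?_
  refine IsDelta0.all hw.tail ?_
  -- 0 = x, 1 = p
  refine (IsDelta0.mem (IsTerm.pr (IsTerm.var 1) (IsTerm.var 0)) hw.tail.tail).imp ?_
  refine IsDelta0.and ?_ ?_
  · refine IsDelta0.all hFx.tail.tail ?_
    refine (IsDelta0.mem (IsTerm.pr (IsTerm.var 2) (IsTerm.var 0)) hFx.tail.tail.tail).imp ?_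
    exact IsDelta0.mem (IsTerm.pr (IsTerm.var 0) (IsTerm.var 1)) hX.tail.tail.tail
  · refine IsDelta0.imp ?_ ?_
    · refine IsDelta0.all hFx.tail.tail ?_
      exact (IsDelta0.mem (IsTerm.pr (IsTerm.var 2) (IsTerm.var 0)) hFx.tail.tail.tail).not
    · refine IsDelta0.allLt hi.tail.tail ?_
      exact (IsDelta0.mem (IsTerm.pr (IsTerm.var 0) (IsTerm.var 1)) hX.tail.tail.tail).not

include hφ

theorem IsDelta0.tup {T X l m nF C Sg Fx i w : (Fin n → MM) → MM} (hT : IsTerm T)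
    (hX : IsTerm X) (hl : IsTerm l) (hm : IsTerm m) (hnF : IsTerm nF) (hC : IsTerm C)
    (hSg : IsTerm Sg) (hFx : IsTerm Fx) (hi : IsTerm i) (hw : IsTerm w) :
    IsDelta0 (fun v => Tup φ (T v) (X v) (l v) (m v) (nF v) (C v) (Sg v) (Fx v) (i v) (w v)) := by
  refine (IsDelta0.func hw).and ((IsDelta0.fixFree hw hX hFx hi).and ?_)
  refine IsDelta0.ex hT ?_
  refine (IsDelta0.mem (IsTerm.pr hl.tail (IsTerm.var 0)) hT.tail).and ?_
  refine IsDelta0.ex (IsTerm.var 0) ?_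
  -- 0 = t, 1 = α
  refine IsDelta0.and ?_ ?_
  · refine IsDelta0.ex (IsTerm.var 1) ?_
    -- 0 = F, 1 = t, 2 = α
    refine (IsDelta0.litSub (IsTerm.var 0) hw.tail.tail.tail hSg.tail.tail.tail (IsTerm.param 0)
      hnF.tail.tail.tail).and ?_
    refine (IsDelta0.crd (IsTerm.var 0) hl.tail.tail.tail).and ?_
    refine (IsDelta0.cfl (IsTerm.var 0) (IsTerm.var 0)).not.and ?_
    exact hφ.der (IsTerm.var 2) hl.tail.tail.tail hm.tail.tail.tail (IsTerm.var 0) (IsTerm.var 1)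
  · refine IsDelta0.all hC.tail.tail ?_
    -- 0 = e, 1 = t, 2 = α
    refine (IsDelta0.mem (IsTerm.var 0) hC.tail.tail.tail).imp ?_
    refine IsDelta0.ex (IsTerm.var 0) ?_
    refine IsDelta0.ex (IsTerm.var 1) ?_
    refine IsDelta0.ex (IsTerm.var 2) ?_
    refine IsDelta0.ex (IsTerm.var 3) ?_
    -- 0 = q, 1 = hi, 2 = lo, 3 = j, 4 = e, 5 = t, 6 = α
    refine (IsDelta0.eq (IsTerm.var 4) (IsTerm.pr (IsTerm.var 3) (IsTerm.pr (IsTerm.var 2)
      (IsTerm.pr (IsTerm.var 1) (IsTerm.var 0))))).and ?_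
    refine IsDelta0.ex hT.tail.tail.tail.tail.tail.tail.tail ?_
    refine (IsDelta0.mem (IsTerm.pr (IsTerm.var 4) (IsTerm.var 0))
      hT.tail.tail.tail.tail.tail.tail.tail.tail).and ?_
    refine IsDelta0.ex (hw.tail.tail.tail.tail.tail.tail.tail.tail.two_mul.add_nat 2).pow2 ?_
    -- 0 = s, 1 = β, 2 = q, 3 = hi, 4 = lo, 5 = j, 6 = e, 7 = t, 8 = α
    refine (IsDelta0.litSub (IsTerm.var 0) hw.tail.tail.tail.tail.tail.tail.tail.tail.tail
      hSg.tail.tail.tail.tail.tail.tail.tail.tail.tail (IsTerm.var 4) (IsTerm.var 3)).and ?_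
    refine (IsDelta0.cfl (IsTerm.var 0) (IsTerm.var 0)).not.and ?_
    exact IsDelta0.kil hφ (IsTerm.var 1) (IsTerm.var 5) (IsTerm.var 2) (IsTerm.var 7) (IsTerm.var 0)

theorem IsDelta0.lst {T X l m nF C Sg Fx i w : (Fin n → MM) → MM} (hT : IsTerm T)
    (hX : IsTerm X) (hl : IsTerm l) (hm : IsTerm m) (hnF : IsTerm nF) (hC : IsTerm C)
    (hSg : IsTerm Sg) (hFx : IsTerm Fx) (hi : IsTerm i) (hw : IsTerm w) :
    IsDelta0 (fun v => Lst φ (T v) (X v) (l v) (m v) (nF v) (C v) (Sg v) (Fx v) (i v) (w v)) := by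
  refine (IsDelta0.tup hφ hT hX hl hm hnF hC hSg hFx hi hw).and ?_
  refine IsDelta0.allLt hw ?_
  exact (IsDelta0.tup hφ hT.tail hX.tail hl.tail hm.tail hnF.tail hC.tail hSg.tail hFx.tail
    hi.tail (IsTerm.var 0)).not

theorem IsDelta0.stp {B T X δ i x : (Fin n → MM) → MM} (hB : IsTerm B) (hT : IsTerm T)
    (hX : IsTerm X) (hδ : IsTerm δ) (hi : IsTerm i) (hx : IsTerm x) :
    IsDelta0 (fun v => Stp φ (B v) (T v) (X v) (δ v) (i v) (x v)) := by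
  refine IsDelta0.or ((IsDelta0.eq hδ (IsTerm.param 0)).and (IsDelta0.eq hx (IsTerm.param 0))) ?_
  refine IsDelta0.ex hδ ?_
  refine IsDelta0.ex hδ.tail ?_
  refine IsDelta0.ex hδ.tail.tail ?_
  refine IsDelta0.ex hδ.tail.tail.tail ?_
  refine IsDelta0.ex hδ.tail.tail.tail.tail ?_
  refine IsDelta0.ex hδ.tail.tail.tail.tail.tail ?_
  refine IsDelta0.ex hδ.tail.tail.tail.tail.tail.tail ?_
  refine IsDelta0.ex hδ.tail.tail.tail.tail.tail.tail.tail ?_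
  -- 0 = p, 1 = i0, 2 = Fx, 3 = Sg, 4 = C, 5 = nF, 6 = m, 7 = l
  refine (IsDelta0.eq hδ.tail.tail.tail.tail.tail.tail.tail.tail
    ((IsTerm.pr (IsTerm.var 7) (IsTerm.pr (IsTerm.var 6) (IsTerm.pr (IsTerm.var 5)
      (IsTerm.pr (IsTerm.var 4) (IsTerm.pr (IsTerm.var 3) (IsTerm.pr (IsTerm.var 2)
        (IsTerm.pr (IsTerm.var 1) (IsTerm.var 0)))))))).add_nat 1)).and ?_
  refine (IsDelta0.le (IsTerm.var 1) hi.tail.tail.tail.tail.tail.tail.tail.tail).and ?_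
  refine IsDelta0.ex hB.tail.tail.tail.tail.tail.tail.tail.tail ?_
  refine (IsDelta0.lst hφ hT.tail.tail.tail.tail.tail.tail.tail.tail.tail
    hX.tail.tail.tail.tail.tail.tail.tail.tail.tail (IsTerm.var 8) (IsTerm.var 7) (IsTerm.var 6)
    (IsTerm.var 5) (IsTerm.var 4) (IsTerm.var 3) (IsTerm.var 2) (IsTerm.var 0)).and ?_
  exact IsDelta0.mem (IsTerm.pr (IsTerm.var 1) hx.tail.tail.tail.tail.tail.tail.tail.tail.tail)
    (IsTerm.var 0)

theorem IsDelta0.run {B T X E N : (Fin n → MM) → MM} (hB : IsTerm B) (hT : IsTerm T)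
    (hX : IsTerm X) (hE : IsTerm E) (hN : IsTerm N) :
    IsDelta0 (fun v => Run φ (B v) (T v) (X v) (E v) (N v)) := by
  refine IsDelta0.allLt hN ?_
  refine IsDelta0.and ?_ ?_
  · refine IsDelta0.ex hX.tail ?_
    exact IsDelta0.mem (IsTerm.pr (IsTerm.var 1) (IsTerm.var 0)) hX.tail.tail
  · refine IsDelta0.all hX.tail ?_
    -- 0 = x, 1 = i
    refine (IsDelta0.mem (IsTerm.pr (IsTerm.var 1) (IsTerm.var 0)) hX.tail.tail).imp ?_
    refine IsDelta0.ex hE.tail.tail ?_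
    refine (IsDelta0.mem (IsTerm.pr (IsTerm.var 2) (IsTerm.var 0)) hE.tail.tail.tail).and ?_
    exact IsDelta0.stp hφ hB.tail.tail.tail hT.tail.tail.tail hX.tail.tail.tail (IsTerm.var 0)
      (IsTerm.var 2) (IsTerm.var 1)

omit hφ

theorem IsDelta0.litRun {r X V0 V1 N : (Fin n → MM) → MM} (hr : IsTerm r) (hX : IsTerm X)
    (h0 : IsTerm V0) (h1 : IsTerm V1) (hN : IsTerm N) :
    IsDelta0 (fun v => LitRun (r v) (X v) (V0 v) (V1 v) (N v)) := by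
  refine IsDelta0.all hr ?_
  refine (IsDelta0.mem (IsTerm.var 0) hr.tail).imp ?_
  refine IsDelta0.exLt hN.tail ?_
  refine IsDelta0.ex hX.tail.tail ?_
  -- 0 = x, 1 = i, 2 = u
  refine (IsDelta0.mem (IsTerm.pr (IsTerm.var 1) (IsTerm.var 0)) hX.tail.tail.tail).and ?_
  refine IsDelta0.or ?_ ?_
  · exact (IsDelta0.mem (IsTerm.var 1) h1.tail.tail.tail).and
      (IsDelta0.eq (IsTerm.var 2) ((IsTerm.var 0).two_mul.add_nat 1))
  · exact (IsDelta0.mem (IsTerm.var 1) h0.tail.tail.tail).and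
      (IsDelta0.eq (IsTerm.var 2) (IsTerm.var 0).two_mul)

end Delta0

end Pool.Agent.BSig
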