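import Pool.Agent.Helper37_BSig.Defs

/-!
# The model: an initial segment of an ultrapower of `ℕ`
-/

namespace Pool.Agent.BSig

open Filter

/-- The ultrafilter. -/
noncomputable def UU : Ultrafilter ℕ := hyperfilter ℕ

/-- Iterated exponentials `tow k n`, `tow 0 n = n + 2`. -/
def tow : ℕ → ℕ → ℕ
  | 0, n => n + 2
  | k + 1, n => 2 ^ tow k n

theorem tow_pos (k n : ℕ) : 2 ≤ tow k n := by
  induction k with
  | zero => simp [tow]
  | succ k ih =>
    have : tow k n < 2 ^ tow k n := Nat.lt_two_pow_self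
    simp only [tow]; omega

theorem tow_lt_succ (k n : ℕ) : tow k n < tow (k + 1) n := Nat.lt_two_pow_self

theorem tow_mono {k l : ℕ} (h : k ≤ l) (n : ℕ) : tow k n ≤ tow l n := by
  induction h with
  | refl => rfl
  | step _ ih => exact ih.trans (tow_lt_succ _ _).le

theorem tow_add {k l m n : ℕ} (hx : l < tow k n) (hy : m < tow k n) : l + m < tow (k + 1) n := by
  have h1 := tow_pos k n
  have h2 : 2 * tow k n ≤ tow (k + 1) n := by
    obtain ⟨c, hc⟩ : ∃ c, tow k n = c + 1 := ⟨tow k n - 1, by omega⟩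
    simp only [tow]
    rw [hc, pow_succ]
    have : c + 1 ≤ 2 ^ c := Nat.lt_two_pow_self
    omega
  omega

theorem tow_mul {k l m n : ℕ} (hx : l < tow k n) (hy : m < tow k n) : l * m < tow (k + 2) n := by
  have h2 : l * m < tow k n * tow k n := by nlinarith
  have h3 : tow k n * tow k n ≤ tow (k + 1) n * tow (k + 1) n := by
    have := (tow_lt_succ k n).le; nlinarith
  have h5 : 2 * tow k n ≤ tow (k + 1) n := by
    have h1 := tow_pos k n
    obtain ⟨c, hc⟩ : ∃ c, tow k n = c + 1 := ⟨tow k n - 1, by omega⟩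
    simp only [tow]
    rw [hc, pow_succ]
    have : c + 1 ≤ 2 ^ c := Nat.lt_two_pow_self
    omega
  have h4 : tow (k + 1) n * tow (k + 1) n ≤ tow (k + 2) n := by
    have e1 : tow (k + 1) n * tow (k + 1) n = 2 ^ (2 * tow k n) := by
      simp only [tow]; rw [← pow_add]; ring_nf
    rw [e1]
    exact Nat.pow_le_pow_right (by norm_num) h5
  omega

/-- The underlying subsemiring of the ultrapower. -/
def MSub : Subsemiring (Germ (UU : Filter ℕ) ℕ) where
  carrier := {x | ∃ k, x < ((tow k : ℕ → ℕ) : Germ (UU : Filter ℕ) ℕ)}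
  zero_mem' := ⟨0, by
    have : (0 : Germ (UU : Filter ℕ) ℕ) = ((fun _ => 0 : ℕ → ℕ) : Germ (UU : Filter ℕ) ℕ) := rfl
    rw [this, Germ.coe_lt]
    exact Eventually.of_forall fun n => by simp [tow]⟩
  one_mem' := ⟨0, by
    have : (1 : Germ (UU : Filter ℕ) ℕ) = ((fun _ => 1 : ℕ → ℕ) : Germ (UU : Filter ℕ) ℕ) := rfl
    rw [this, Germ.coe_lt]
    exact Eventually.of_forall fun n => by simp [tow]⟩
  add_mem' := by
    intro a b
    refine Germ.inductionOn₂ a b ?_
    rintro f g ⟨k, hk⟩ ⟨l, hl⟩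
    refine ⟨max k l + 1, ?_⟩
    rw [← Germ.coe_add, Germ.coe_lt]
    rw [Germ.coe_lt] at hk hl
    filter_upwards [hk, hl] with n h1 h2
    exact tow_add (h1.trans_le (tow_mono (le_max_left _ _) _))
      (h2.trans_le (tow_mono (le_max_right _ _) _))
  mul_mem' := by
    intro a b
    refine Germ.inductionOn₂ a b ?_
    rintro f g ⟨k, hk⟩ ⟨l, hl⟩
    refine ⟨max k l + 2, ?_⟩
    rw [← Germ.coe_mul, Germ.coe_lt]
    rw [Germ.coe_lt] at hk hl
    filter_upwards [hk, hl] with n h1 h2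
    exact tow_mul (h1.trans_le (tow_mono (le_max_left _ _) _))
      (h2.trans_le (tow_mono (le_max_right _ _) _))

/-- The model. -/
def MM : Type := MSub

noncomputable instance : CommSemiring MM := inferInstanceAs (CommSemiring MSub)
noncomputable instance : LinearOrder MM := inferInstanceAs (LinearOrder MSub)

/-- Bounded sequences. -/
def Bdd (f : ℕ → ℕ) : Prop := ∃ k, ∀ᶠ n in (UU : Filter ℕ), f n < tow k n

/-- The element of the model given by a bounded sequence. -/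
noncomputable def mk (f : ℕ → ℕ) (hf : Bdd f) : MM :=
  ⟨(f : Germ (UU : Filter ℕ) ℕ), by
    obtain ⟨k, hk⟩ := hf; exact ⟨k, Germ.coe_lt.2 hk⟩⟩

/-- A representing sequence of an element of the model. -/
noncomputable def rep (x : MM) : ℕ → ℕ := (Quotient.exists_rep (x.1 : Germ (UU : Filter ℕ) ℕ)).choose

theorem coe_rep (x : MM) : ((rep x : ℕ → ℕ) : Germ (UU : Filter ℕ) ℕ) = x.1 :=
  (Quotient.exists_rep (x.1 : Germ (UU : Filter ℕ) ℕ)).choose_spec

theorem bdd_rep (x : MM) : Bdd (rep x) := by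
  obtain ⟨k, hk⟩ := x.2
  exact ⟨k, Germ.coe_lt.1 (by rw [coe_rep]; exact hk)⟩

theorem mk_rep (x : MM) : mk (rep x) (bdd_rep x) = x := Subtype.ext (coe_rep x)

theorem rep_mk (f : ℕ → ℕ) (hf : Bdd f) : rep (mk f hf) =ᶠ[(UU : Filter ℕ)] f :=
  Germ.coe_eq.1 (coe_rep (mk f hf))

theorem mk_eq {f g : ℕ → ℕ} {hf : Bdd f} {hg : Bdd g} :
    mk f hf = mk g hg ↔ ∀ᶠ n in (UU : Filter ℕ), f n = g n := by
  constructor
  · intro h
    exact Germ.coe_eq.1 (congrArg Subtype.val h)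
  · intro h
    exact Subtype.ext (Germ.coe_eq.2 h)

theorem mk_le {f g : ℕ → ℕ} {hf : Bdd f} {hg : Bdd g} :
    mk f hf ≤ mk g hg ↔ ∀ᶠ n in (UU : Filter ℕ), f n ≤ g n := Germ.coe_le

theorem mk_lt {f g : ℕ → ℕ} {hf : Bdd f} {hg : Bdd g} :
    mk f hf < mk g hg ↔ ∀ᶠ n in (UU : Filter ℕ), f n < g n := Germ.coe_lt

theorem bdd_of_le {f g : ℕ → ℕ} (hg : Bdd g) (h : ∀ᶠ n in (UU : Filter ℕ), f n ≤ g n) : Bdd f := by
  obtain ⟨k, hk⟩ := hg
  exact ⟨k, by filter_upwards [hk, h] with n h1 h2; omega⟩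

theorem bdd_add {f g : ℕ → ℕ} (hf : Bdd f) (hg : Bdd g) : Bdd (fun n => f n + g n) := by
  obtain ⟨k, hk⟩ := hf; obtain ⟨l, hl⟩ := hg
  refine ⟨max k l + 1, ?_⟩
  filter_upwards [hk, hl] with n h1 h2
  exact tow_add (h1.trans_le (tow_mono (le_max_left _ _) _))
      (h2.trans_le (tow_mono (le_max_right _ _) _))

theorem bdd_mul {f g : ℕ → ℕ} (hf : Bdd f) (hg : Bdd g) : Bdd (fun n => f n * g n) := by
  obtain ⟨k, hk⟩ := hf; obtain ⟨l, hl⟩ := hg
  refine ⟨max k l + 2, ?_⟩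
  filter_upwards [hk, hl] with n h1 h2
  exact tow_mul (h1.trans_le (tow_mono (le_max_left _ _) _))
      (h2.trans_le (tow_mono (le_max_right _ _) _))

theorem bdd_pow2 {f : ℕ → ℕ} (hf : Bdd f) : Bdd (fun n => 2 ^ f n) := by
  obtain ⟨k, hk⟩ := hf
  refine ⟨k + 1, ?_⟩
  filter_upwards [hk] with n h1
  exact Nat.pow_lt_pow_right (by norm_num) h1

theorem bdd_const (c : ℕ) : Bdd (fun _ => c) := by
  refine ⟨0, ?_⟩
  have : ∀ᶠ n in (UU : Filter ℕ), c ≤ n := by
    have : (UU : Filter ℕ) ≤ atTop := by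
      rw [← Nat.cofinite_eq_atTop]; exact hyperfilter_le_cofinite
    exact this (eventually_ge_atTop c)
  filter_upwards [this] with n hn
  simp only [tow]; omega

theorem bdd_tow (k : ℕ) : Bdd (tow k) :=
  ⟨k + 1, Eventually.of_forall fun n => tow_lt_succ k n⟩

theorem mk_add {f g : ℕ → ℕ} (hf : Bdd f) (hg : Bdd g) :
    mk f hf + mk g hg = mk (fun n => f n + g n) (bdd_add hf hg) := Subtype.ext rfl

theorem mk_mul {f g : ℕ → ℕ} (hf : Bdd f) (hg : Bdd g) :
    mk f hf * mk g hg = mk (fun n => f n * g n) (bdd_mul hf hg) := Subtype.ext rfl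

theorem mk_zero : (0 : MM) = mk (fun _ => 0) (bdd_const 0) := Subtype.ext rfl

theorem mk_one : (1 : MM) = mk (fun _ => 1) (bdd_const 1) := Subtype.ext rfl

/-- `2^x` in the model. -/
noncomputable def pw (x : MM) : MM := mk (fun n => 2 ^ rep x n) (bdd_pow2 (bdd_rep x))

theorem pw_mk {f : ℕ → ℕ} (hf : Bdd f) : pw (mk f hf) = mk (fun n => 2 ^ f n) (bdd_pow2 hf) := by
  rw [pw, mk_eq]
  filter_upwards [rep_mk f hf] with n hn
  rw [hn]

theorem exists_mk (x : MM) : ∃ f, ∃ hf : Bdd f, x = mk f hf := ⟨rep x, bdd_rep x, (mk_rep x).symm⟩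

noncomputable instance : PAExp MM where
  zero_le' := by
    intro x; obtain ⟨f, hf, rfl⟩ := exists_mk x
    rw [mk_zero, mk_le]; exact Eventually.of_forall fun _ => Nat.zero_le _
  discrete := by
    intro x y; obtain ⟨f, hf, rfl⟩ := exists_mk x; obtain ⟨g, hg, rfl⟩ := exists_mk y
    rw [mk_lt, mk_one, mk_add, mk_le]; rfl
  add_le_add' := by
    intro x y z h
    obtain ⟨f, hf, rfl⟩ := exists_mk x; obtain ⟨g, hg, rfl⟩ := exists_mk y
    obtain ⟨e, he, rfl⟩ := exists_mk z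
    rw [mk_le] at h
    rw [mk_add, mk_add, mk_le]
    filter_upwards [h] with n hn; omega
  mul_le_mul' := by
    intro x y z h
    obtain ⟨f, hf, rfl⟩ := exists_mk x; obtain ⟨g, hg, rfl⟩ := exists_mk y
    obtain ⟨e, he, rfl⟩ := exists_mk z
    rw [mk_le] at h
    rw [mk_mul, mk_mul, mk_le]
    filter_upwards [h] with n hn
    exact Nat.mul_le_mul_right _ hn
  add_cancel' := by
    intro x y z h
    obtain ⟨f, hf, rfl⟩ := exists_mk x; obtain ⟨g, hg, rfl⟩ := exists_mk y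
    obtain ⟨e, he, rfl⟩ := exists_mk z
    rw [mk_add, mk_add, mk_eq] at h
    rw [mk_eq]
    filter_upwards [h] with n hn; omega
  mul_pos' := by
    intro x y hx hy
    obtain ⟨f, hf, rfl⟩ := exists_mk x; obtain ⟨g, hg, rfl⟩ := exists_mk y
    rw [mk_zero, mk_lt] at hx hy
    rw [mk_zero, mk_mul, mk_lt]
    filter_upwards [hx, hy] with n h1 h2
    exact Nat.mul_pos h1 h2
  exists_add := by
    intro x y h
    obtain ⟨f, hf, rfl⟩ := exists_mk x; obtain ⟨g, hg, rfl⟩ := exists_mk y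
    rw [mk_le] at h
    refine ⟨mk (fun n => g n - f n) (bdd_of_le hg (Eventually.of_forall fun n => Nat.sub_le _ _)), ?_⟩
    rw [mk_add, mk_eq]
    filter_upwards [h] with n hn; omega
  zero_ne_one' := by
    rw [mk_zero, mk_one, Ne, mk_eq]
    intro h
    obtain ⟨n, hn⟩ := h.exists
    exact absurd hn (by norm_num)
  pow2 := pw
  pow2_zero := by
    rw [mk_zero, pw_mk, mk_one]; rfl
  pow2_succ := by
    intro x; obtain ⟨f, hf, rfl⟩ := exists_mk x
    have h2 : (2 : MM) = mk (fun _ => 2) (bdd_const 2) := by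
      have : (2 : MM) = 1 + 1 := by norm_num
      rw [this, mk_one, mk_add]
    rw [mk_one, mk_add, pw_mk, pw_mk, h2, mk_mul, mk_eq]
    exact Eventually.of_forall fun n => by ring

end Pool.Agent.BSig
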